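import Pool.Agent.MP_ee8c61_ag.Q3FT.Spec
import Pool.Agent.MP_ee8c61_ag.M3RESID.CvAt

/-! The exponents on a ruled surface in terms of the exponents on the base curve. -/

namespace Pool.Agent.MP_ee8c61_ag.Q3FT

open M3 M3RESID M3F Q3 Q3BK Pool.Agent.MP_cce4c9_lc.H87 Finset Polynomial
open M3BK (Nrm)
open scoped IntermediateField

noncomputable section

namespace EX

variable {k L : Type} [Field k] [Algebra ℂ k] [Field L] [Algebra ℂ L]

theorem rat_of {n : ℕ} (C : Co L n) (d : Dv L) {q : ℕ} {ψ : L}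
    (h : ∀ i, d.δ (C.D i) = C.D i ψ / (q * ψ)) (X : VF L) :
    d.δ X = C.dv.δ X + X ψ / (q * ψ) := by
  rw [C.δ_exp d, Co.dv_δ, C.exp_apply X ψ, sum_div, ← sum_add_distrib]
  exact sum_congr rfl fun i _ => by rw [h]; ring

theorem jac_one {n : ℕ} {C C' : Co L n} (h : C'.z = C.z) : C.jac C' = 1 := by
  have : (Matrix.of fun l i => C'.D i (C.z l)) = 1 := by
    ext l i
    rw [Matrix.of_apply, ← h, C'.dual, Matrix.one_apply]
    simp only [eq_comm]
  rw [Co.jac, this, Matrix.det_one]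

theorem alg (hk : IsFF ℂ k) {t : k} (ht : ∀ c : ℂ, algebraMap ℂ k c ≠ t) :
    Algebra.IsAlgebraic (IntermediateField.adjoin ℂ (Set.range fun _ : Unit => t)) k := by
  obtain ⟨s, -, hs⟩ := hk
  have h3 : Algebra.trdeg ℂ k ≤ Cardinal.mk Unit := by
    have : Algebra.IsAlgebraic (Algebra.adjoin ℂ ({s} : Set k)) k :=
      IntermediateField.isAlgebraic_adjoin_iff_top.1 inferInstance
    exact (Algebra.IsAlgebraic.trdeg_le_cardinalMk ℂ ({s} : Set k)).trans (by simp)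
  have h4 : Transcendental ℂ t := MP_cce4c9_lc.H14.transc (by
    rintro ⟨c, hc⟩
    exact ht c hc)
  exact (((algebraicIndependent_unique_type_iff (x := fun _ : Unit => t)).2
    h4).isTranscendenceBasis_of_trdeg_le_of_finite h3).isAlgebraic_field

theorem kill (hk : IsFF ℂ k) (ι : k →ₐ[ℂ] L) {t : k} (ht : ∀ c : ℂ, algebraMap ℂ k c ≠ t)
    (v : VF L) (h : v (ι t) = 0) (c : k) : v (ι c) = 0 := by
  have h1 := (alg hk ht).isAlgebraic c
  have h2 : IntermediateField.adjoin ℂ (Set.range fun _ : Unit => t) ≤ (cst {v}).comap ι :=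
    IntermediateField.adjoin_le_iff.2 (by
      rintro _ ⟨_, rfl⟩ _ rfl
      exact h)
  refine kill_alg (cst {v}) v (fun x hx => hx v rfl) ?_
  exact h1.ringHom_of_comp_eq ((ι.toRingHom.comp (algebraMap (IntermediateField.adjoin ℂ
    (Set.range fun _ : Unit => t)) k)).codRestrict (cst {v})
    fun x => h2 x.2) ι.toRingHom (RingHom.injective _) rfl

theorem fg (hk : IsFF ℂ k) : (⊤ : IntermediateField ℂ k).FG := by
  obtain ⟨s, -, hs⟩ := hk
  have : Algebra.EssFiniteType ℂ ℂ⟮s⟯ := IntermediateField.essFiniteType_iff.2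
    (IntermediateField.fg_adjoin_of_finite (Set.finite_singleton _))
  exact IntermediateField.fg_top_iff.2 (Algebra.EssFiniteType.comp ℂ ℂ⟮s⟯ k)

theorem nc {D : VF k} {t : k} (ht : D t ≠ 0) (c : ℂ) : algebraMap ℂ k c ≠ t := fun e =>
  ht (by rw [← e, Derivation.map_algebraMap])

/-- The coordinate on the curve. -/
def co1 (hk : IsFF ℂ k) (D : VF k) (t : k) (ht : D t ≠ 0) : Co k 1 where
  z _ := t
  D _ := (D t)⁻¹ • D
  ne _ h := ht (by rw [h, map_zero])
  dual i j := by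
    rw [Derivation.smul_apply, smul_eq_mul, inv_mul_cancel₀ ht, if_pos (Subsingleton.elim _ _)]
  span v h := Derivation.ext fun c => kill hk (AlgHom.id ℂ k) (nc ht) v (h 0) c

theorem delta1 {e : Dv k} {D : VF k} {q : ℕ} {ψ : k} (hq : 0 < q) (hψ : ψ ≠ 0)
    (hd : e.δ D = D ψ / (q * ψ)) {u : k} (hu : u ≠ 0) :
    e.δ (u • D) = (u • D) (ψ * u ^ q) / (q * (ψ * u ^ q)) := by
  have := cz k
  have h1 : (q : k) ≠ 0 := by exact_mod_cast hq.ne'
  obtain ⟨r, rfl⟩ : ∃ r, q = r + 1 := ⟨q - 1, by omega⟩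
  rw [e.smul, hd, Derivation.smul_apply, Derivation.leibniz, Derivation.leibniz_pow]
  simp only [smul_eq_mul, nsmul_eq_mul, Nat.add_sub_cancel]
  field_simp
  ring

theorem reg {U : DV k} {t : k} (ht : U.v t = 1) (D : VF k) (hD : D t = 1) :
    ∀ a ∈ IntermediateField.adjoin ℂ (Set.range fun _ : Fin 1 => t), a ∈ U.F 0 → D a ∈ U.F 0 := by
  have t0 : t ≠ 0 := fun h => by simp [h, U.zero] at ht
  have t1 : t ∈ U.F 1 := Or.inr ht.ge
  have hp : ∀ r : ℂ[X], aeval t r ∈ U.F 0 := fun r => (Algebra.adjoin_le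
    (Set.singleton_subset_iff.2 (U.F_anti zero_le_one t1)) : _ ≤ oA U)
    (aeval_mem_adjoin_singleton ℂ t)
  have mul : ∀ a b : k, a ≠ 0 → b ≠ 0 → t * D a / a - U.v a ∈ U.F 1 →
      t * D b / b - U.v b ∈ U.F 1 → t * D (a * b) / (a * b) - U.v (a * b) ∈ U.F 1 := by
    intro a b ha hb h1 h2
    refine F_of_eq (add_mem h1 h2) ?_
    rw [U.mul _ _ ha hb, Derivation.leibniz, smul_eq_mul, smul_eq_mul]
    push_cast
    field_simp
    ring
  have pol : ∀ (n : ℕ) (r : ℂ[X]), r.natDegree = n → r ≠ 0 →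
      aeval t r ≠ 0 ∧ t * D (aeval t r) / aeval t r - U.v (aeval t r) ∈ U.F 1 := by
    intro n
    induction n using Nat.strong_induction_on with
    | _ n ih =>
      intro r hn hr
      have e := congrArg (aeval t) (X_mul_divX_add r)
      rw [map_add, map_mul, aeval_X, aeval_C] at e
      by_cases h0 : r.coeff 0 = 0
      · rw [h0, map_zero, add_zero] at e
        have h1 : r.divX ≠ 0 := fun h => hr (by rw [← X_mul_divX_add r, h, h0]; simp)
        have h2 : r.natDegree ≠ 0 := fun h => h1 (divX_eq_zero_iff.2 (eq_C_of_natDegree_eq_zero h))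
        obtain ⟨i1, i2⟩ := ih _ (by rw [natDegree_divX_eq_natDegree_tsub_one]; omega) _ rfl h1
        rw [← e]
        exact ⟨mul_ne_zero t0 i1, mul _ _ t0 i1 (by simp [hD, ht, t0]) i2⟩
      · have h1 : aeval t r ∉ U.F 1 := fun h => h0 (cst_F1 (L := k) (o := U)
          (F_of_eq (sub_mem h (F_mul0' t1 (hp r.divX))) (by rw [← e]; ring)))
        obtain ⟨u1, u2⟩ := CVA.unit_inv (hp r) h1
        have h2 : U.v (aeval t r) = 0 := by
          have h3 := (hp r).resolve_left u1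
          have h4 : ¬1 ≤ U.v (aeval t r) := fun h => h1 (Or.inr h)
          omega
        refine ⟨u1, ?_⟩
        rw [h2, Int.cast_zero, sub_zero, D.map_aeval, hD, smul_eq_mul, mul_one, div_eq_mul_inv]
        exact F_mul0' (F_mul0' t1 (hp _)) u2
  intro a ha h0
  rw [Set.range_const] at ha
  obtain ⟨r, s, rfl⟩ := (IntermediateField.mem_adjoin_simple_iff ℂ a).1 ha
  by_cases hr : r = 0
  · simp [hr]
  by_cases hs : s = 0
  · simp [hs]
  obtain ⟨r1, r2⟩ := pol _ r rfl hr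
  obtain ⟨s1, s2⟩ := pol _ s rfl hs
  generalize aeval t r = x at *
  generalize aeval t s = z at *
  have h1 : t * D (x / z) / (x / z) - U.v (x / z) ∈ U.F 1 := by
    refine F_of_eq (sub_mem r2 s2) ?_
    rw [div_eq_mul_inv x z, U.mul _ _ r1 (inv_ne_zero s1), U.inv, ← div_eq_mul_inv,
      Derivation.leibniz_div, smul_eq_mul, smul_eq_mul, smul_eq_mul]
    push_cast
    field_simp
    ring
  have a0 : x / z ≠ 0 := div_ne_zero r1 s1
  generalize x / z = a at *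
  have h2 : (U.v a : k) * a ∈ U.F 1 := by
    rcases (h0.resolve_left a0).eq_or_lt with h | h
    · simp [← h]
    · exact F_mul0 (int_F _) (Or.inr h)
  have h3 := F_div (add_mem (F_mul0' h1 h0) h2) t
  rw [ht, sub_self] at h3
  exact F_of_eq h3 (by field_simp; ring)

theorem unif (hk : IsFF ℂ k) {D : VF k} (D0 : D ≠ 0) {U : DV k} {t : k} (ht : U.v t = 1) :
    D t ≠ 0 := fun h => D0 (Derivation.ext fun c => kill hk (AlgHom.id ℂ k)
  (fun c e => by rw [← e, v_cst] at ht; omega) D h c)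

theorem exp1 (hk : IsFF ℂ k) {e : Dv k} {D : VF k} {q : ℕ} {ψ : k} (hq : 0 < q) (hψ : ψ ≠ 0)
    (hd : e.δ D = D ψ / (q * ψ)) {U : DV k} {t : k} (ht : U.v t = 1) (h0 : D t ≠ 0) :
    Exp e U ((1 + U.v (ψ * (D t)⁻¹ ^ q) / q : ℚ) : ℂ) := by
  have hf := (co1 hk D t h0).fin (fg hk)
  have h1 : ((D t)⁻¹ • D) t = 1 := (co1 hk D t h0).dual 0 0
  have hA : (co1 hk D t h0).At U 0 := ⟨cst_F U,
    fun j => by rw [if_pos (Subsingleton.elim _ _)]; exact ht,
    fun j => CVA.der_reg (IntermediateField.adjoin ℂ (Set.range (co1 hk D t h0).z)) ht _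
      (F_of_eq one_F h1) (reg ht _ h1)⟩
  have h2 := exp_cv hA (mul_ne_zero hψ (pow_ne_zero q (inv_ne_zero h0)))
    (rat_of (co1 hk D t h0) e fun _ => delta1 hq hψ hd (inv_ne_zero h0))
  rwa [jac_one rfl, U.one, Int.cast_zero, add_zero] at h2

theorem main {ι : k →ₐ[ℂ] L} {y : L} {e : Dv k} {d : Dv L} (R : Rl ι y e d) {D : VF k} {q : ℕ}
    {ψ : k} (hq : 0 < q) (hψ : ψ ≠ 0) (hd : e.δ D = D ψ / (q * ψ)) {t : k} (h0 : D t ≠ 0)
    {Γ : DV L} {a : ℚ} (ha : Exp d Γ a) {x g : L} (hx : Γ.v x = 1) (hg : NC Γ g) :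
    ∃ n : ℕ, a = n + Γ.v (ι t) + Γ.v (ι (ψ * (D t)⁻¹ ^ q)) / q ∧ (x = ι t → g = y → n = 0) := by
  have := cz L
  have q0 : (q : L) ≠ 0 := by exact_mod_cast hq.ne'
  have y0 := R.y0
  obtain ⟨Y, Y1, Y2, Y3⟩ := R.eul
  obtain ⟨T, T1, T2, T3⟩ := R.lft ((D t)⁻¹ • D)
  have h1 : ((D t)⁻¹ • D) t = 1 := (co1 R.ff D t h0).dual 0 0
  have t0 : ι t ≠ 0 := (map_ne_zero ι).2 ((co1 R.ff D t h0).ne 0)
  let C : Co L 2 :=
    { z := ![ι t, y]
      D := ![T, y⁻¹ • Y]
      ne := fun i => by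
        fin_cases i
        exacts [t0, y0]
      dual := fun i j => by
        fin_cases i <;> fin_cases j <;> simp [T1, T2, Y1, Y2, h0, y0]
      span := fun v h => Derivation.ext fun z => by
        have : IntermediateField.adjoin ℂ (Set.range ι ∪ {y}) ≤ cst {v} :=
          IntermediateField.adjoin_le_iff.2 (by
            rintro _ (⟨c, rfl⟩ | rfl) _ rfl
            exacts [kill R.ff ι (nc h0) _ (h 0) c, h 1])
        exact this (R.gen ▸ IntermediateField.mem_top) v rfl }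
  have hL : (⊤ : IntermediateField ℂ L).FG := by
    obtain ⟨S, hS⟩ := fg R.ff
    have h2 : IntermediateField.adjoin ℂ (ι '' S ∪ {y}) = ⊤ := by
      rw [eq_top_iff, ← R.gen, IntermediateField.adjoin_le_iff]
      rintro _ (⟨c, rfl⟩ | h)
      · refine IntermediateField.adjoin.mono _ _ _ Set.subset_union_left ?_
        rw [← IntermediateField.adjoin_map, hS]
        exact ⟨c, trivial, rfl⟩
      · exact IntermediateField.subset_adjoin _ _ (Or.inr h)
    exact h2 ▸ IntermediateField.fg_adjoin_of_finite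
      ((S.finite_toSet.image _).union (Set.finite_singleton _))
  obtain ⟨C', z', hA⟩ := cv_at C (C.fin hL) hx hg.1 hg.2
  have T3' := T3.trans (congrArg ι (delta1 hq hψ hd (inv_ne_zero h0)))
  have p0 : ι (ψ * (D t)⁻¹ ^ q) ≠ 0 :=
    (map_ne_zero ι).2 (mul_ne_zero hψ (pow_ne_zero q (inv_ne_zero h0)))
  rw [map_div₀, ← T1, map_mul ι (q : k), map_natCast] at T3'
  have Y1' := Y1 (ψ * (D t)⁻¹ ^ q)
  generalize ι (ψ * (D t)⁻¹ ^ q) = p at p0 T3' Y1' ⊢
  have h2 := exp_cv hA (mul_ne_zero p0 (zpow_ne_zero (-(q : ℤ)) y0)) (rat_of C d (q := q) fun i => by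
    have := zpow_ne_zero (-(q : ℤ)) y0
    fin_cases i
    · show d.δ T = T _ / _
      rw [T3', Derivation.leibniz, Dv.zpow_der T y y0, T2]
      simp only [smul_eq_mul]
      field_simp
      ring
    · show d.δ (y⁻¹ • Y) = (y⁻¹ • Y) _ / _
      rw [d.smul, Y3, Derivation.smul_apply, Derivation.leibniz, Dv.zpow_der Y y y0, Y2, Y1',
        Derivation.leibniz_inv, Y2]
      simp only [smul_eq_mul]
      push_cast
      field_simp
      ring)
  have h3 : a = _ := Rat.cast_injective (ha.uniq h2 hx)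
  have h4 : C.jac C' / (ι t * y) ∈ Γ.F (-1) := by
    have a0 := hA.D_LV' 0
    have a1 := hA.D_LV (j := 1) (by simp)
    refine F_of_eq (sub_mem (F_mul0' (LV_dlog a0 (ι t)) (LV_dlog a1 y))
      (F_mul0 (LV_dlog a1 (ι t)) (LV_dlog a0 y))) ?_
    rw [Co.jac, Matrix.det_fin_two]
    show (C'.D 0 (ι t) * C'.D 1 y - C'.D 1 (ι t) * C'.D 0 y) / _ = _
    field_simp
  have h5 := h4.resolve_left (div_ne_zero (C.jac_ne C') (mul_ne_zero t0 y0))
  rw [div_eq_mul_inv, Γ.mul _ _ (C.jac_ne C') (inv_ne_zero (mul_ne_zero t0 y0)), Γ.inv,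
    Γ.mul _ _ t0 y0] at h5
  obtain ⟨n, hn⟩ := Int.eq_ofNat_of_zero_le
    (show 0 ≤ 1 + Γ.v (C.jac C') - Γ.v (ι t) - Γ.v y by omega)
  refine ⟨n, ?_, fun e1 e2 => ?_⟩
  · have q1 : (q : ℚ) ≠ 0 := by exact_mod_cast hq.ne'
    have h6 : (n : ℚ) = 1 + Γ.v (C.jac C') - Γ.v (ι t) - Γ.v y := by exact_mod_cast hn.symm
    rw [h3, h6, Γ.mul _ _ p0 (zpow_ne_zero _ y0), v_zpow Γ y0]
    push_cast
    field_simp
    ring
  · have h6 : C.jac C' = 1 := jac_one (by rw [z', e1, e2])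
    have h7 := hg.1.resolve_left (e2 ▸ y0)
    rw [h6, Γ.one, ← e1, hx, ← e2] at hn
    omega

end EX

open EX in
theorem rEX : SEX := by
  intro k L _ _ _ _ ι y e d R
  obtain ⟨D, q, ψ, D0, hq, hψ, hd⟩ := R.rat
  refine ⟨fun U ⟨t, ht⟩ => ⟨_, exp1 R.ff hq hψ hd ht (unif R.ff D0 ht)⟩, ?_⟩
  rintro Γ a ⟨x, hx⟩ ⟨g, hg⟩ ha
  refine ⟨fun h => ?_, ?_⟩
  · obtain ⟨t, ht⟩ : ∃ t, D t ≠ 0 := by
      by_contra! h
      exact D0 (Derivation.ext h)
    obtain ⟨n, hn, -⟩ := main R hq hψ hd ht ha hx hg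
    rw [hn, h, h]
    simp
  · rintro U m a' ⟨⟨t, ht⟩, -, hm⟩ ha'
    have h0 := unif R.ff D0 ht
    have h1 : a' = _ := Rat.cast_injective (ha'.uniq (exp1 R.ff hq hψ hd ht h0) ht)
    have key : ∀ n : ℕ, (n : ℚ) + Γ.v (ι t) + Γ.v (ι (ψ * (D t)⁻¹ ^ q)) / q = m * a' + n :=
      fun n => by
        rw [hm, hm, ht, h1]
        push_cast
        ring
    refine ⟨?_, fun m1 hy => ?_⟩
    · obtain ⟨n, hn, -⟩ := main R hq hψ hd h0 ha hx hg
      exact ⟨n, hn.trans (key n)⟩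
    · obtain ⟨n, hn, n0⟩ := main R hq hψ hd h0 ha (x := ι t) (by rw [hm, ht, m1]; rfl) hy
      rw [hn, key, n0 rfl rfl, m1]
      simp

end

end Pool.Agent.MP_ee8c61_ag.Q3FT
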