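import Pool.Agent.MP_ee8c61_ag.Q3FT.RFtA
import Pool.Agent.MP_ee8c61_ag.Q3BK.Ty

/-! The divisor over a double curve is ruled. -/

namespace Pool.Agent.MP_ee8c61_ag.Q3FT

open M3 M3E M3RESID M3Z Q3BK Pool.Agent.MP_cce4c9_lc.H87

noncomputable section

variable {k L : Type} [Field k] [Algebra ℂ k] [Field L] [Algebra ℂ L]

theorem lc_tr {A B : Subalgebra ℂ L} {V : ValuationSubring L} (h : ∀ g ∈ A, Lc B V g) {g : L}
    (hg : Lc A V g) : Lc B V g := by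
  obtain ⟨s, s1, s2, s3⟩ := hg
  have := ((h s s1).inv s2).mul (h _ s3)
  rwa [inv_mul_cancel_left₀ s2.1] at this

variable {f : Po 3} {M : M3.Mod 3} {P : Pl (KK 3) L} {G : Pl L k} {o j : M.J} {b : M.ι}

/-- The residue map on the local ring of the curve. -/
def phiO (hb : M.In b (cmp P G.o.O)) : LA (M.S.A b) (cmp P G.o.O) →ₐ[ℂ] k :=
  have m : ∀ g : LA (M.S.A b) (cmp P G.o.O), (g : KK 3) ∈ cmp P G.o.O := fun g => Lc.mem' g.2 hb
  { toFun g := G.π (P.π g)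
    map_one' := by rw [OneMemClass.coe_one, P.π_one, G.π_one]
    map_mul' a c := by
      rw [MulMemClass.coe_mul, P.mul _ (m a).1 _ (m c).1, G.mul _ (m a).2 _ (m c).2]
    map_zero' := by rw [ZeroMemClass.coe_zero, P.π_zero, G.π_zero]
    map_add' a c := by
      rw [AddMemClass.coe_add, P.add _ (m a).1 _ (m c).1, G.add _ (m a).2 _ (m c).2]
    commutes' c := by
      show G.π (P.π (algebraMap ℂ _ c)) = _
      rw [P.π_cst, G.π_cst] }

theorem lr_of (h : Fl f M P G o j) (hb : M.In b (cmp P G.o.O)) {l0 l1 l2 : Fin 3}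
    (hl : Lb b o j l0 l1 l2) {la : ℚ} (ho : M.ex la o = 0) (hj : M.ex la j = 0) {e : Dv L}
    {e' : Dv k} (he : P.RsD (dvf f la) e) (hE : Exp e G.o 0) (he' : G.RsD e e') :
    Lr (co3 h.der hl 0) (LA (M.S.A b) (cmp P G.o.O)) (dvf f la) (phiO hb) e' := by
  have ad := cht_ad h.ok b la
  have uy := h.un_y hb hl 0
  have un : ∀ g, Un (cmp P G.o.O) g → G.π (P.π g) ≠ 0 := fun g hg =>
    have u := G.o.un_O.1 (un_cmp.1 hg).2
    pi_ne u.1 u.2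
  have sur : Function.Surjective (phiO hb) := fun y => by
    obtain ⟨y1, hy1, rfl⟩ := G.surj y
    obtain ⟨g, hg, rfl⟩ := P.surj y1
    obtain ⟨g', hg', e1⟩ := h.lift hb ⟨hg, hy1⟩
    exact ⟨⟨g', hg'⟩, congrArg G.π e1.symm⟩
  have zm := fun l => Lc.of_mem (V := cmp P G.o.O) (M.S.z_mem b l)
  refine ⟨⟨fun l => ?_, fun l g hg => ?_⟩, ?_, ?_, ?_, fun g => ?_, sur, fun g hg => ?_, un _ uy,
    fun θ => ?_⟩
  · fin_cases l
    exacts [zm l0, zm l1, Lc.of_mem (sub_mem (M.S.z_mem b l2) (Subalgebra.algebraMap_mem _ _))]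
  · fin_cases l <;> exact h.der.lc b _ _ g hg
  · have := ad l0
    simp only [cex_some hl.h0, ho, Rat.cast_zero, map_zero, sub_zero] at this
    exact Lc.of_mem this
  · have := ad l1
    simp only [cex_some hl.h1, hj, Rat.cast_zero, map_zero, sub_zero] at this
    exact Lc.of_mem this
  · rw [map_zero, sub_zero] at uy
    exact Co.δ_D_unit (C := cht h.ok b) (O := LA (M.S.A b) (cmp P G.o.O)) (Lc.of_mem (ad l2))
      ((zm l2).inv uy)
  · obtain ⟨s, s1, s2, s3⟩ := cht_frac h.ok b g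
    exact ⟨s, Lc.of_mem s1, s2, Lc.of_mem s3⟩
  · have gm := Lc.mem' g.2 hb
    obtain ⟨s, s1, s2, s3⟩ := g.2
    obtain ⟨t, t1, a, ha, c, hc, t2, e1⟩ := h.isc.2.2.2.2 b hb _ s3 fun u => un _ u (by
      rw [P.mul _ s2.2.1.1 _ gm.1, G.mul _ s2.2.1.2 _ gm.2, show G.π (P.π g) = 0 from hg, mul_zero])
    have i1 := (Lc.of_mem (mul_mem t1 s1)).inv (t2.mul s2)
    refine ⟨_, i1.mul (Lc.of_mem ha), _, i1.mul (Lc.of_mem hc), ?_⟩
    rw [Mod.η, Mod.η, M.S.η_some b o l0 hl.h0, M.S.η_some b j l1 hl.h1] at e1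
    rw [mul_assoc, mul_assoc, ← mul_add]
    exact (eq_inv_mul_iff_mul_eq₀ (t2.mul s2).1).2 ((mul_assoc _ _ _).trans e1)
  · obtain ⟨C, hC, hA⟩ := h.exists_co2 hb hl 0
    obtain ⟨D, hD⟩ := exists_Rs G (hA.D_LV (j := 1) (by decide))
    obtain ⟨v, hv⟩ := rs_all (h.isFF hb hl) hA θ
    obtain ⟨c, hc⟩ := sur (G.π (v (C.z 1)))
    have r := hC.D (h.at3 hb hl 0) 1
    have key : ∀ g : LA (M.S.A b) (cmp P G.o.O),
        D (G.π (P.π g)) = G.π (P.π (M.S.D b l2 g)) := fun g => by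
      have gm := Lc.mem' g.2 hb
      rw [← hD.2 _ gm.2, ← r.2 _ gm.1]
      rfl
    refine ⟨c, fun g => ?_, ?_⟩
    · rw [rs_eq hA hv hD, hc]
      exact congrArg _ (key g)
    · rw [← he' _ _ hv, dv_res hA hE hv.1 hD, ← hc, ← he _ _ r]
      exact congrArg _ (key c)

theorem rFT : SFT := by
  intro f la W M D o j i G e e' L _ _ P d hW hM ho hj hG hV hZ he he' hP hd
  have hF := flag hM hG hV
  obtain ⟨e2, h2⟩ := cvd hM ho hj he hG hV
  obtain rfl : e2 = e' := h2.rd.uniq he' h2.rs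
  obtain ⟨b, hb⟩ := hM.cov _ hV.2.1
  obtain ⟨l0, l1, l2, hl⟩ := hF.labels hb
  obtain ⟨b', hb'⟩ := hW.cov _ hV.2.1
  have dc := eout.dc _ f _ _ D hW hM
  obtain ⟨i1, i2, ⟨l, i3⟩, i4⟩ := (eout.bas _ f _ hW).in_v b' _ i hb' hZ.cv.2.2.2.1
  have le : ∀ g ∈ LA (M.S.A b) (lift (M.v o).pl G), g ∈ (W.v i).O := fun g hg =>
    (lc_tr (dc.lc b b' _ hb hb') hg).mem i1 fun s s1 s2 => (W.v i).un_O.2 ⟨s2.1, i4 s s1 s2⟩
  have m := fun l => dc.m_eq b i l fun g hg => le g (Lc.of_mem hg)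
  have v0 := m o
  have v1 := m j
  rw [Mod.η, M.S.η_some b o l0 hl.h0, ← hP] at v0
  rw [Mod.η, M.S.η_some b j l1 hl.h1, ← hP, hZ.mj] at v1
  obtain ⟨ι, y, h3, h4⟩ := (lr_of hF hb hl ho hj he h2.zero he').rl h2.ff h2.rat (P := P)
    (hP ▸ le) hZ.mo v0.symm v1.symm (hP ▸ exp_v0 hW hZ.ex) (hP ▸ (cht_dat hW i3 i2).adp) hd
  exact ⟨ι, y, h3, fun a ha g hg => h4 ⟨g, lc_tr (hF.bas.lc a b _ ha hb) hg⟩⟩

end

end Pool.Agent.MP_ee8c61_ag.Q3FT
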