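import Pool.Agent.MP_ee8c61_ag.Q3FT.Spec
import Pool.Agent.MP_ee8c61_ag.M3E.Final
import Pool.Agent.MP_ee8c61_ag.M3.FinK
import Pool.Agent.MP_ee8c61_ag.M3.FKit2
import Pool.Agent.MP_ee8c61_ag.M3RESID.U3
import Pool.Agent.MP_ee8c61_ag.M3L.R1

/-! Curves away from the divisors of negative exponent; triple points. -/

namespace Pool.Agent.MP_ee8c61_ag.Q3FT

open M3 M3RESID M3F M3E Q3 Finset
open M3BK (Nrm)
open M3K (Tc)

noncomputable section

namespace RNn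

variable {N : ℕ} {f : Po N} {W M : Mod N} {la : ℚ}

theorem ex_pb (D : Dom W M) (hW : W.OK f) (hM : M.OK f) (i : W.J) :
    W.ex la i = W.nu i - D.pb M.nu i + ∑ j, (D.m i j : ℚ) * M.ex la j := by
  have h := congrFun (eout.dc N f W M D hW hM).aa i
  have h2 : (W.a i : ℚ) = ∑ j, (D.m i j : ℚ) * M.a j := by
    simp only [Dom.pb, Mod.aa] at h
    exact_mod_cast h.symm
  have h3 : ∑ j, (D.m i j : ℚ) * M.ex la j =
      D.pb M.nu i - la * ∑ j, (D.m i j : ℚ) * M.a j := by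
    rw [Dom.pb, mul_sum, ← sum_sub_distrib]
    exact sum_congr rfl fun j _ => by simp only [Mod.ex, Mod.nu]; ring
  rw [h3, ← h2]
  simp only [Mod.ex, Mod.nu]
  ring

theorem m_e (D : Dom W M) (hW : W.OK f) (hM : M.OK f) (i j : M.J) :
    D.m (D.e i) j = if i = j then 1 else 0 := by
  have h := (eout.dc N f W M D hW hM).pb_e ℤ (M.e j) i
  rw [D.pb_e, Mod.e_apply] at h
  split_ifs at h ⊢ <;> exact_mod_cast h

theorem ex_e (D : Dom W M) (hW : W.OK f) (hM : M.OK f) (j : M.J) :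
    W.ex la (D.e j) = M.ex la j := by
  have h := congrFun (eout.dc N f W M D hW hM).aa (D.e j)
  rw [(eout.dc N f W M D hW hM).pb_e] at h
  have h2 : W.a (D.e j) = M.a j := by
    simp only [Mod.aa] at h
    exact_mod_cast h.symm
  simp only [Mod.ex, (eout.jd N f W M D hW hM).2, h2]

/-- Nonnegative exponents along a valuation go up. -/
theorem up (D : Dom W M) (hW : W.OK f) (hM : M.OK f) (o : M.J) {V : Vl N} (hV : Ov V)
    (h : ∀ j, M.Thru V j → 0 ≤ M.ex la j) (i : W.J) (hi : W.Thru V i) : 0 ≤ W.ex la i := by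
  rw [ex_pb D hW hM]
  refine add_nonneg (sub_nonneg.2 (M3L.pb_nu_le eout D hW hM o i)) (sum_nonneg fun j _ => ?_)
  rcases Nat.eq_zero_or_pos (D.m i j) with e | e
  · simp [e]
  · exact mul_nonneg (Nat.cast_nonneg _)
      (h j (((kout_of eout).th N f W M D hW hM V j hV).2 ⟨i, hi, e⟩))

/-- At most three divisors pass through a point. -/
theorem three {f : Po 3} {M : Mod 3} (hM : M.OK f) {V : Vl 3} (hV : Ov V) {o j l : M.J}
    (h1 : o ≠ j) (h2 : o ≠ l) (h3 : j ≠ l) (t0 : M.Thru V o) (tj : M.Thru V j) (tl : M.Thru V l)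
    {m : M.J} (tm : M.Thru V m) : m = o ∨ m = j ∨ m = l := by
  have B := eout.bas 3 f M hM
  obtain ⟨b, hb⟩ := hM.cov V hV
  obtain ⟨-, -, ⟨x, hx⟩, -⟩ := B.in_v b V o hb t0
  obtain ⟨-, -, ⟨y, hy⟩, -⟩ := B.in_v b V j hb tj
  obtain ⟨-, -, ⟨z, hz⟩, -⟩ := B.in_v b V l hb tl
  obtain ⟨-, -, ⟨w, hw⟩, -⟩ := B.in_v b V m hb tm
  have e1 : x ≠ y := fun e => h1 (M.S.lab_inj b _ _ y (e ▸ hx) hy)
  have e2 : x ≠ z := fun e => h2 (M.S.lab_inj b _ _ z (e ▸ hx) hz)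
  have e3 : y ≠ z := fun e => h3 (M.S.lab_inj b _ _ z (e ▸ hy) hz)
  have : w = x ∨ w = y ∨ w = z := by omega
  rcases this with rfl | rfl | rfl
  exacts [Or.inl (M.S.lab_inj b _ _ _ hw hx), Or.inr (Or.inl (M.S.lab_inj b _ _ _ hw hy)),
    Or.inr (Or.inr (M.S.lab_inj b _ _ _ hw hz))]

theorem tc_un {V : Vl N} {τ : KK N} (h : Tc V τ) : Un V τ := by simpa using h 0

/-- The exponent along a curve that lies on one divisor only. -/
theorem exp_off {f : Po 3} {W : Mod 3} {k : Type} [Field k] [Algebra ℂ k] {P : Pl (KK 3) k}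
    {Γ : DV k} {b : W.ι} {o : W.J} {e : Dv k} {p : k} (hW : W.OK f) (hP : P.o = W.v o)
    (h0 : W.ex la o = 0) (he : P.RsD (dvf f la) e) (hp : Γ.v p = 1) (hb : W.In b (lift P Γ))
    (hn : ∀ j ≠ o, ¬W.Thru (lift P Γ) j) {g : KK 3} (hg : Lc (W.S.A b) (lift P Γ) g)
    (hc : NC Γ (P.π g)) : Exp e Γ 1 := by
  obtain ⟨i, C', hi, h⟩ := nr_nc hW hP hp hb hg hc
  have hB := M3E.rowBas1 _ f W hW
  have hl := (lz_lcA (W.S.A b) (lift P Γ)).le
  have hd : Exp (dvf f la) P.o 0 := hP ▸ exp_v0 hW h0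
  have ha := (cht_ad (la := la) hW b).mono hl
  refine h.exp_one (kf_fg hW hP) hd he ha fun l e => ?_
  by_cases h1 : l ∈ ls W b
  · obtain ⟨j, hj⟩ := mem_ls.1 h1
    have h2 := hn j (by rintro rfl; exact e (Option.some.inj (hj.symm.trans hi)))
    rw [hB.thru_iff b _ j hb, not_not, Mod.η, W.S.η_some b j l hj] at h2
    exact Or.inr (lc_inv ((cht_st hW b).z l) h2)
  · exact Or.inl (by simp [cex_none h1])

end RNn

open RNn

theorem rNN : SNN := by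
  intro f la M o e Γ a hM h0 he ⟨p, hp⟩ ⟨g, hg⟩ hV hall ha
  have K := kout_of eout
  obtain ⟨τ, hτ, rfl⟩ := (M.v o).pl.surj g
  have ht : Tc (lift (M.v o).pl Γ) τ := (nc_iff hτ).1 hg
  obtain ⟨W, D, hW, hl⟩ := K.real 3 f M hM o _ τ hV lift_le (tc_un ht)
  have hP : (M.v o).pl.o = W.v (D.e o) := (D.v o).symm
  have h1 : W.ex la (D.e o) = 0 := (ex_e D hW hM o).trans h0
  have hL : Lv W (D.e o) (M.v o).pl Γ := ⟨(eout.bas 3 f W hW).toBas1, hP, hW.cov _ hV⟩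
  rcases hL.dich K.up hW hl ht with ⟨i, hi⟩ | hn
  · have h2 := ha.uniq (exp_isCv hW hP h1 he hp hi) hp
    rw [show a = W.ex la i by exact_mod_cast h2]
    exact up D hW hM o hV hall i hi.2.2.2.1
  · obtain ⟨b, hb⟩ := hL.cov
    have h2 := ha.uniq (exp_off hW hP h1 he hp hb hn (hl b hb) hg) hp
    rw [show a = 1 by exact_mod_cast h2]
    exact zero_le_one

theorem rT3 : OfT3 := by
  intro hLS hRT hZF hP3 hNN f la b M Q o j l hf hb hM hQ oj ol jl eo ej el qo qj ql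
  have K := kout_of eout
  have B := eout.bas 3 f M hM
  obtain ⟨V, a, ha, hVo, tj, tl, ht⟩ := hP3 f M o j l hM oj ol jl Q hQ qo qj ql
  have hV : Ov V := B.ov a V ha
  have t0 : M.Thru V o := B.thru_le V o hV hVo
  have z3 : ∀ V', Ov V' → M.Thru V' o → M.Thru V' j → M.Thru V' l → ∀ m, M.Thru V' m →
      M.ex la m = 0 := fun V' h h1 h2 h3 m hm => by
    rcases three hM h oj ol jl h1 h2 h3 hm with rfl | rfl | rfl <;> assumption
  obtain ⟨W1, D1, hW1, hl⟩ := K.real 3 f M hM o V _ hV hVo (tc_un ht)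
  have T1 := K.th 3 f W1 M D1 hW1 hM
  obtain ⟨a1, ha1⟩ := hW1.cov V hV
  obtain ⟨i1, t1, mj⟩ := (T1 V j hV).1 tj
  have hne : ∀ i m, m ≠ o → 0 < D1.m i m → i ≠ D1.e o := fun i m h1 h2 e => by
    rw [e, m_e D1 hW1 hM, if_neg h1.symm] at h2
    exact lt_irrefl _ h2
  have hC : W1.IsCv (D1.e o) i1 V := K.up f W1 hW1 _ i1 V a1 _ (hne _ _ oj.symm mj) ha1
    (by rw [D1.v]; exact hVo) t1 (hl a1 ha1) ht
  have ml : 0 < D1.m i1 l := by
    obtain ⟨i, t, m⟩ := (T1 V l hV).1 tl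
    rcases (eout.cv 3 f W1 hW1).thru _ _ V i hC t with e | e
    · exact absurd e (hne _ _ ol.symm m)
    · exact e ▸ m
  have hm : M.η a j / M.η a l * M.mon a (M.e l - M.e j) = 1 := by
    have e1 := B.mon_e a l 1
    have e2 := B.mon_e a j 1
    rw [one_smul, zpow_one] at e1 e2
    have n1 : M.η a l ≠ 0 := Units.ne_zero _
    have n2 : M.η a j ≠ 0 := Units.ne_zero _
    rw [sub_eq_add_neg, B.mon_add, B.mon_neg, e1, e2]
    field_simp
  have hmo := K.mo f W1 M D1 hW1 hM o j l i1 V a (M.e l - M.e j) _ oj ol jl hC ha tj tl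
    (K.r0 f M hM V a o j l oj ol jl ha t0 tj tl)
    (by rw [hm]; exact ⟨1, one_mem _, un_one, by rw [one_mul]; exact one_mem _⟩)
    (by rw [hm]; exact un_one) ht
  have e1 : W1.ex la i1 = 0 := by
    rw [ex_pb D1 hW1 hM, hmo, sub_self, zero_add]
    refine sum_eq_zero fun m _ => ?_
    rcases Nat.eq_zero_or_pos (D1.m i1 m) with e | e
    · simp [e]
    · rw [z3 V hV t0 tj tl m ((T1 V m hV).2 ⟨i1, t1, e⟩), mul_zero]
  have e0 : W1.ex la (D1.e o) = 0 := (ex_e D1 hW1 hM o).trans eo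
  obtain ⟨W2, D2, i2, hW2, hZ⟩ := hZF f la W1 (D1.e o) i1 V hW1 e0 e1 hC
  have T2 := K.th 3 f W2 W1 D2 hW2 hW1
  have B2 := eout.bas 3 f W2 hW2
  have dn : ∀ V', Ov V' → V' ≤ (W2.v i2).O → M.Thru V' o ∧ M.Thru V' j ∧ M.Thru V' l :=
    fun V' h h' => by
      have s := B2.thru_le V' i2 h h'
      have s1 := (T2 V' _ h).2 ⟨i2, s, hZ.mo⟩
      have s2 := (T2 V' i1 h).2 ⟨i2, s, by rw [hZ.mj]; exact one_pos⟩
      exact ⟨(T1 V' o h).2 ⟨_, s1, by rw [m_e D1 hW1 hM, if_pos rfl]; exact one_pos⟩,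
        (T1 V' j h).2 ⟨_, s2, mj⟩, (T1 V' l h).2 ⟨_, s2, ml⟩⟩
  obtain ⟨-, -, e, -, he, -⟩ := exists_rat (P := (W2.v i2).pl) hW2 hZ.ex rfl
  obtain ⟨g, g1, g2⟩ := hLS f la W2 i2 e hf hW2 hZ.ex he fun Γ c h1 h2 h3 h4 => by
    have h5 : Ov (lift (W2.v i2).pl Γ) := fun p => ⟨B2.ov_v i2 p, Or.inr (h3 p).ge⟩
    obtain ⟨s1, s2, s3⟩ := dn _ h5 lift_le
    exact hNN f la W2 i2 e Γ c hW2 hZ.ex he h1 h2 h5 (up D2 hW2 hW1 i1 h5
      (up D1 hW1 hM o h5 fun m hm => (z3 _ h5 s1 s2 s3 m hm).ge)) h4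
  obtain ⟨s1, s2, s3⟩ := dn _ (B2.ov_v i2) le_rfl
  have := hRT f la b M {o, j, l} (W2.v i2).O g hf hb hM (B2.ov_v i2) (by
    intro i hi
    simp only [mem_insert, mem_singleton] at hi
    rcases hi with rfl | rfl | rfl
    exacts [⟨eo, s1⟩, ⟨ej, s2⟩, ⟨el, s3⟩]) g1 fun m hm => by
      have := g2 (D2.e (D1.e m)) (by rwa [ex_e D2 hW2 hW1, ex_e D1 hW1 hM])
      rwa [D2.v, D1.v] at this
  rwa [card_eq_three.2 ⟨o, j, l, oj, ol, jl, rfl⟩] at this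

end

end Pool.Agent.MP_ee8c61_ag.Q3FT
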