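import Pool.Agent.MP_ee8c61_ag.Q3FT.Spec
import Pool.Agent.MP_ee8c61_ag.M3E.Final
import Pool.Agent.MP_ee8c61_ag.M3BK.RPt
import Pool.Agent.MP_ee8c61_ag.M3BK.RFl
import Pool.Agent.MP_ee8c61_ag.M3BK.RSurfA
import Pool.Agent.MP_ee8c61_ag.M3BQ.Br
import Pool.Agent.MP_ee8c61_ag.M3BQ.All

/-! A curve over a triple point. -/

namespace Pool.Agent.MP_ee8c61_ag.Q3FT

open M3 M3RESID

theorem rP3 : SP3 := by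
  intro f M o j l hM hj hl hjl Q ⟨b₀, hb₀⟩ qo qj ql
  have B := M3E.eout.bas 3 f M hM
  obtain ⟨C, lab, hQ⟩ : ∃ C lab, M3BK.Pt3 M f Q C lab :=
    ⟨_, _, M3BK.pt3 hM (M3E.eout.nb 3 f M hM) hb₀⟩
  obtain ⟨i, hi⟩ := (hQ.on o).1 qo
  obtain ⟨i₁, h₁⟩ := (hQ.on j).1 qj
  obtain ⟨i₀, h₀⟩ := (hQ.on l).1 ql
  obtain ⟨b, hb, hz⟩ := hQ.ch
  have hd := hQ.dat i o hi
  have n₁ : i₁ ≠ i := fun e => hj (Option.some.inj (hi.symm.trans (e ▸ h₁)))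
  have n₀ : i₀ ≠ i := fun e => hl (Option.some.inj (hi.symm.trans (e ▸ h₀)))
  have n : i₁ ≠ i₀ := fun e => hjl (Option.some.inj (h₁.symm.trans (e ▸ h₀)))
  obtain ⟨C', x, hR, hx, hg⟩ := M3BK.RFl.res (P := (M.v o).pl) hQ.rg hd
  have hr := M3BQ.rg_iff.1 hg
  obtain ⟨D, hD, e₀, e₁⟩ : ∃ D, M3BQ.Reg x D ∧ D.z 0 = (M.v o).pl.π (C.z i₀) ∧
      D.z 1 = (M.v o).pl.π (C.z i₁) := by
    obtain ⟨a₁, rfl⟩ := Fin.exists_succAbove_eq n₁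
    obtain ⟨a₀, rfl⟩ := Fin.exists_succAbove_eq n₀
    rw [← hR a₀, ← hR a₁]
    have : a₁ ≠ a₀ := fun e => n (by rw [e])
    fin_cases a₀ <;> fin_cases a₁
    · exact absurd rfl this
    · exact ⟨_, hr, rfl, rfl⟩
    · exact ⟨_, hr.sw, rfl, rfl⟩
    · exact absurd rfl this
  obtain ⟨Γ, hΓ⟩ := M3BQ.sord _ x D hD
  have dm := M3BK.RSurf.dm_lift hx (M3BQ.dm_iff.2 hΓ.dm)
  have hb' : M.In b (M3BK.RSurf.lift (M.v o).pl Γ.O) := fun g hg => dm.1 g (hb.le hg)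
  have th : ∀ {t s}, lab t = some s → M.Thru (M3BK.RSurf.lift (M.v o).pl Γ.O) s := fun e =>
    (B.thru_iff b _ _ hb').2 (hz _ _ e ▸ dm.2 _ (hQ.rg.st.z _) (hQ.rg.ev _))
  refine ⟨_, b, hb', M3BK.RSurf.lift_le, th h₁, th h₀, fun a => ?_⟩
  have v₀ : (M.v o).pl.o.v (C.z i₀) = 0 := hd.adp.vz' n₀
  have m₁ : C.z i₁ ∈ (M.v o).pl.o.F 0 := hd.le _ (hQ.rg.st.z _)
  have m : C.z i₁ / C.z i₀ ∈ (M.v o).pl.o.F 0 := by simpa [v₀] using F_div m₁ (C.z i₀)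
  obtain ⟨R, hq⟩ := M3BQ.sqex _ x D a hD
  have k := M3BQ.sexc _ x D Γ a R hD hΓ hq
  rw [← hz _ _ h₁, ← hz _ _ h₀]
  refine M3BK.RSurf.un_lift.2 ⟨sub_mem m (cst_F _ _), ?_⟩
  rw [Pl.π_sub m (cst_F _ _), Pl.π_cst, Pl.π_div m₁ (C.ne _) v₀, ← e₀, ← e₁]
  exact Γ.un_O.2 ⟨(M3BQ.qt D a).ne 1, k.adp.vz' (j := 1) (by decide)⟩

end Pool.Agent.MP_ee8c61_ag.Q3FT
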