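import Pool.Agent.MP_ee8c61_ag.Q3FT.Spec
import Pool.Agent.MP_ee8c61_ag.M3.FinK
import Pool.Agent.MP_ee8c61_ag.M3E.Final
import Pool.Agent.MP_ee8c61_ag.M3.TrRef
import Pool.Agent.MP_ee8c61_ag.M3.FKit2
import Pool.Agent.MP_ee8c61_ag.M3RESID.U3
import Pool.Agent.MP_ee8c61_ag.M3RESID.RAV

/-! The divisor of exponent zero over a double curve of exponent zero. -/

namespace Pool.Agent.MP_ee8c61_ag.Q3FT

open M3 M3RESID M3F Q3 Finset
open M3K (Tc)

namespace RZf

theorem third : ∀ x y : Option (Fin 3), ∃ l, x ≠ some l ∧ y ≠ some l := by decide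

/-- A local function on a double curve that is not constant. -/
theorem exists_tc {f : Po 3} {M : Mod 3} (hM : M.OK f) {o j : M.J} {V : Vl 3}
    (hV : M.IsCv o j V) {a : M.ι} (ha : M.In a V) : ∃ τ ∈ M.S.A a, Tc V τ := by
  obtain ⟨l, h1, h2⟩ := third (M.S.lab a o) (M.S.lab a j)
  refine ⟨M.S.z a l, M.S.z_mem a l, ((kout_of M3E.eout).dt f M hM o j V a _ l hV ha h1 h2
    (Lc.of_mem (M.S.z_mem a l))).2.2 ?_⟩
  rw [M.S.D_z, if_pos rfl]
  exact un_one

/-- The strict inequality for log discrepancies. -/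
theorem plt {f : Po 3} {W M : Mod 3} (D : Dom W M) (hW : W.OK f) (hM : M.OK f) (o : M.J)
    {i : W.J} (hi : i ≠ D.e o) : D.pb (M.q (M.kk + M.e o)) i < W.nu i := by
  have h := (M3E.eout.plt 3 f W M D hW hM o 0 rfl fun _ => by simp).2.2 i
  rw [Dom.bd, add_zero] at h
  simp only [Pi.sub_apply, Pi.add_apply, Mod.q_apply, Mod.e_apply, if_neg hi, Mod.kk] at h
  simp only [Mod.nu]
  push_cast at h
  linarith

end RZf

theorem rZF : SZF := by
  intro f la M o j V hM ho hj hV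
  have E := M3E.eout
  have K := kout_of E
  obtain ⟨W, D, hW, hS⟩ := K.sep 3 f M hM o j hV.1.symm
  have BM := (E.bas 3 f M hM).toBas1
  have BW := (E.bas 3 f W hW).toBas1
  have Dc := E.dc 3 f W M D hW hM
  have Jd := (E.jd 3 f W M D hW hM).2
  obtain ⟨a, ha⟩ := hM.cov V hV.2.1
  obtain ⟨b, hb⟩ := hW.cov V hV.2.1
  obtain ⟨G, h1, rfl, hL⟩ := exists_dv (P := (M.v o).pl) BM (E.cv 3 f M hM) rfl hV ha
  have hL' := hL.up D hW BW
  obtain ⟨i, hi, hm⟩ := (K.th 3 f W M D hW hM _ j hV.2.1).1 hV.2.2.2.1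
  have me : ∀ l l', D.m (D.e l) l' = if l = l' then 1 else 0 := fun l l' => by
    have := Dc.pb_e ℤ (M.e l') l
    rw [D.pb_e, M.e_apply] at this
    split_ifs at this ⊢ <;> exact_mod_cast this
  have io : i ≠ D.e o := fun e => by
    rw [e, me, if_neg hV.1.symm] at hm
    exact lt_irrefl _ hm
  have ij : i ≠ D.e j := fun e => hS _ hV.2.1 (BW.thru_le _ _ hV.2.1 hL'.le) (e ▸ hi)
  obtain ⟨τ, t1, t2⟩ := RZf.exists_tc hM hV ha
  have hC : W.IsCv (D.e o) i (lift (M.v o).pl G) :=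
    K.up f W hW _ i _ b τ io hb hL'.le hi (Dc.lc a b _ ha hb τ t1) t2
  obtain ⟨-, -, e, -, he, -⟩ := exists_rat (P := (M.v o).pl) hM ho rfl
  have aa : ∀ l, W.a l = ∑ l', D.m l l' * M.a l' := fun l => by
    have := congrFun Dc.aa l
    simp only [Dom.pb, Mod.aa] at this
    exact_mod_cast this.symm
  have ho' : W.ex la (D.e o) = 0 := by
    have h2 := congrFun Dc.aa (D.e o)
    rw [Dc.pb_e] at h2
    simp only [Mod.aa, Nat.cast_inj] at h2
    simp only [Mod.ex, Jd, ← h2] at ho ⊢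
    exact ho
  have x1 := exp_isCv hM rfl ho he h1 hV
  have x2 := exp_isCv hW (D.v o).symm ho' he h1 hC
  have hx : W.ex la i = 0 := by
    have := x2.uniq x1 h1
    rw [hj] at this
    exact_mod_cast this
  have mm : ∀ l, l ≠ o → D.m i l = if l = j then 1 else 0 := fun l hl => by
    have h2 := tr_ref D hL hL' hl
    rw [hL.tr_cv (E.cv 3 f M hM) ⟨_, h1⟩ hV] at h2
    simp only [hL'.tr_cv (E.cv 3 f W hW) ⟨_, h1⟩ hC, mul_ite, mul_one, mul_zero, sum_ite_eq',
      mem_univ, if_true] at h2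
    split_ifs at h2 ⊢ <;> exact_mod_cast h2.symm
  refine ⟨W, D, i, hW, hC, hx, Nat.pos_of_ne_zero fun h0 => ?_, by rw [mm j hV.1, if_pos rfl],
    fun l h2 h3 => by rw [mm l h2, if_neg h3]⟩
  have m2 : ∀ l, D.m i l = if l = j then 1 else 0 := fun l => by
    by_cases hl : l = o
    · rw [hl, h0, if_neg hV.1.symm]
    · exact mm l hl
  have h2 := RZf.plt D hW hM j ij
  have h3 := aa i
  simp only [m2, ite_mul, one_mul, zero_mul, sum_ite_eq', mem_univ, if_true] at h3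
  simp only [Dom.pb, m2, Nat.cast_ite, Nat.cast_one, Nat.cast_zero, ite_mul, one_mul, zero_mul,
    sum_ite_eq', mem_univ, if_true, Mod.q_apply, Pi.add_apply, Mod.e_apply, Mod.kk, Mod.nu] at h2
  simp only [Mod.ex, h3] at hx hj
  push_cast at h2
  linarith

end Pool.Agent.MP_ee8c61_ag.Q3FT
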