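import Pool.Agent.MP_ee8c61_ag.Q3.Defs
import Pool.Agent.MP_ee8c61_ag.Q3BK.Crv
import Pool.Agent.MP_ee8c61_ag.M3K.Out

/-! The ruled divisor over a double curve of exponent zero: the statements. -/

namespace Pool.Agent.MP_ee8c61_ag.Q3FT

open M3 M3RESID M3F Q3 Q3BK Pool.Agent.MP_cce4c9_lc.H87
open M3BK (Nrm)
open M3K (Tc)

noncomputable section

section Surf

variable {k L : Type} [Field k] [Algebra ℂ k] [Field L] [Algebra ℂ L]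

/-- `L` is the field of rational functions in `y` over `k`, and `d` is `e ∧ dlog y`. -/
structure Rl (ι : k →ₐ[ℂ] L) (y : L) (e : Dv k) (d : Dv L) : Prop where
  ff : IsFF ℂ k
  rat : Rat1 e
  gen : IntermediateField.adjoin ℂ (Set.range ι ∪ {y}) = ⊤
  y0 : y ≠ 0
  eul : ∃ Y : VF L, (∀ c, Y (ι c) = 0) ∧ Y y = y ∧ d.δ Y = 0
  lft : ∀ θ : VF k, ∃ T : VF L, (∀ c, T (ι c) = ι (θ c)) ∧ T y = 0 ∧ d.δ T = ι (e.δ θ)

/-- The curve `Γ` lies over the place `U` with multiplicity `m`. -/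
def Ovr (ι : k →ₐ[ℂ] L) (Γ : DV L) (U : DV k) (m : ℕ) : Prop :=
  Nrm U ∧ 0 < m ∧ ∀ c, Γ.v (ι c) = m * U.v c

/-- A family `S` of curves that controls the poles of the functions outside `K`. -/
structure Cnt (D : SD L) (K : IntermediateField ℂ L) (S : Set (DV L)) : Prop where
  cv : ∀ Γ ∈ S, Cv D.x Γ
  ex : ∀ Γ ∈ S, D.ex Γ < 0 ∨ ∃ r : ℕ, 0 < r ∧ D.ex Γ = 1 / r
  neg : ∃ Γ ∈ S, D.ex Γ < 0
  triv : ∀ Γ ∈ S, ∀ g ∈ K, g ∈ Γ.F 0
  reg : ∀ g, (∀ Γ ∈ S, g ∈ Γ.F 0) → g ∈ K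

end Surf

/-- A statement about all pairs of fields. -/
def AllR (p : ∀ {k L : Type} [Field k] [Algebra ℂ k] [Field L] [Algebra ℂ L] (_ : k →ₐ[ℂ] L),
    Prop) : Prop :=
  ∀ (k L : Type) [Field k] [Algebra ℂ k] [Field L] [Algebra ℂ L] (ι : k →ₐ[ℂ] L), p ι

/-! ### Fields -/

/-- A valuation is trivial on the subfield or lies over a place. -/
def SRS : Prop := AllR fun {_ L _ _ _ _} ι => ∀ Γ : DV L,
  (∀ c, Γ.v (ι c) = 0) ∨ ∃ U m, Ovr ι Γ U m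

/-- A function with one pole; the residue fields are the constants. -/
def SOP : Prop := ∀ (k : Type) [Field k] [Algebra ℂ k], IsFF ℂ k → ∀ U : DV k, Nrm U →
  (∃ h, U.v h < 0 ∧ ∀ U' : DV k, Nrm U' → U' ≠ U → h ∈ U'.F 0) ∧
    ∀ g ∈ U.F 0, ∃ c : ℂ, g - algebraMap ℂ k c ∈ U.F 1

/-- The fibre over a place. -/
def SGS : Prop := AllR fun {k L _ _ _ _} ι => ∀ (y : L) (e : Dv k) (d : Dv L), Rl ι y e d →
  ∀ U, Nrm U → ∃ Γ, Ovr ι Γ U 1 ∧ NC Γ y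

/-- The exponents on the surface in terms of the exponents on the curve. -/
def SEX : Prop := AllR fun {k L _ _ _ _} ι => ∀ (y : L) (e : Dv k) (d : Dv L), Rl ι y e d →
  (∀ U, Nrm U → ∃ a : ℚ, Exp e U a) ∧
  ∀ (Γ : DV L) (a : ℚ), Nrm Γ → (∃ g, NC Γ g) → Exp d Γ a → ((∀ c, Γ.v (ι c) = 0) → 0 ≤ a) ∧
    ∀ U (m : ℕ) (a' : ℚ), Ovr ι Γ U m → Exp e U a' →
      (∃ n : ℕ, a = m * a' + n) ∧ (m = 1 → NC Γ y → a = a')

/-! ### The surface datum -/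

/-- The family of curves on a wall. -/
def SCN : Prop := ∀ (L : Type) [Field L] [Algebra ℂ L] (D : SD L), OK1 D → 0 < D.t0 → D.Small →
  D.Pen → (∀ l, ∃ c : ℂ, D.x l = algebraMap ℂ L c) → ∃ K S, Cnt D K S

/-- The type of the curve on a wall. -/
def SDE : Prop := AllR fun {k L _ _ _ _} ι => ∀ (y : L) (e : Dv k) (D : SD L) K S,
  Rl ι y e D.d → Vol0 D → Cnt D K S → Ty1 e

def OfDE : Prop := SRS → SOP → SEX → SDE

/-- The type of the curve at time zero. -/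
def SLA : Prop := AllR fun {k L _ _ _ _} ι => ∀ (y : L) (e : Dv k) (D : SD L),
  Rl ι y e D.d → OK1 D → D.t0 = 0 → (∀ l, ∃ c : ℂ, D.x l = algebraMap ℂ L c) →
  (∀ s ∈ D.S0, s ∈ Set.range ι) → (∃ (U : DV k) (a : ℚ), Nrm U ∧ Exp e U a ∧ a < 0) →
  (∀ Γ j, Cv D.x Γ → D.Core j Γ → D.al j = 0 → (∀ l, ¬NC Γ (D.x l)) → Null D.x D.S0 Γ) → Ty1 e

def OfLA : Prop := SRS → SOP → SGS → SEX → SLA

/-! ### Models -/

/-- The divisor `i` of `W` has the double curve `V` of `o` and `j` as its centre. -/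
structure Zf {W M : Mod 3} (D : Dom W M) (la : ℚ) (o j : M.J) (i : W.J) (V : Vl 3) : Prop where
  cv : W.IsCv (D.e o) i V
  ex : W.ex la i = 0
  mo : 0 < D.m i o
  mj : D.m i j = 1
  ml : ∀ l, l ≠ o → l ≠ j → D.m i l = 0

def SZF : Prop := ∀ (f : Po 3) (la : ℚ) (M : Mod 3) (o j : M.J) (V : Vl 3), M.OK f →
  M.ex la o = 0 → M.ex la j = 0 → M.IsCv o j V →
  ∃ (W : Mod 3) (D : Dom W M) (i : W.J), W.OK f ∧ Zf D la o j i V

/-- The divisor is ruled over the curve. -/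
def SFT : Prop := ∀ (f : Po 3) (la : ℚ) (W M : Mod 3) (D : Dom W M) (o j : M.J) (i : W.J)
  (G : DV (M.v o).kf) (e : Dv (M.v o).kf) (e' : Dv G.kf) (L : Type) [Field L] [Algebra ℂ L]
  (P : Pl (KK 3) L) (d : Dv L), W.OK f → M.OK f → M.ex la o = 0 → M.ex la j = 0 → Nrm G →
  M.IsCv o j (lift (M.v o).pl G) → Zf D la o j i (lift (M.v o).pl G) →
  (M.v o).pl.RsD (dvf f la) e → G.pl.RsD e e' → P.o = W.v i → P.RsD (dvf f la) d →
  ∃ (ι : G.kf →ₐ[ℂ] L) (y : L), Rl ι y e' d ∧ ∀ b, M.In b (lift (M.v o).pl G) →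
    ∀ g, Lc (M.S.A b) (lift (M.v o).pl G) g → P.π g = ι (G.pl.π ((M.v o).pl.π g))

/-- At time zero the sections come from the divisor of the exponents. -/
def SDS : Prop := ∀ (f : Po 3) (la : ℚ) (M : Mod 3) (C : Ch f M) (o : M.J) (Y : C.AS o),
  M.OK f → M.ex la o = 0 → Y.OK la → C.t = 0 →
  ∃ c : M.J → ℤ, (∀ j, (c j : ℚ) ≤ Y.m * M.ex la j) ∧ ∀ g ∈ Y.T0, g ∈ M.H c

/-- A curve over a triple point. -/
def SP3 : Prop := ∀ (f : Po 3) (M : Mod 3) (o j l : M.J), M.OK f → o ≠ j → o ≠ l → j ≠ l →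
  ∀ Q ∈ M.pts, M.On Q o → M.On Q j → M.On Q l → ∃ V b, M.In b V ∧ V ≤ (M.v o).O ∧
    M.Thru V j ∧ M.Thru V l ∧ Tc V (M.η b j / M.η b l)

/-- The exponent of a curve whose centre lies on no divisor of negative exponent. -/
def SNN : Prop := ∀ (f : Po 3) (la : ℚ) (M : Mod 3) (o : M.J) (e : Dv (M.v o).kf)
  (Γ : DV (M.v o).kf) (a : ℚ), M.OK f → M.ex la o = 0 → (M.v o).pl.RsD (dvf f la) e → Nrm Γ →
  (∃ g, NC Γ g) → Ov (lift (M.v o).pl Γ) →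
  (∀ j, M.Thru (lift (M.v o).pl Γ) j → 0 ≤ M.ex la j) → Exp e Γ a → 0 ≤ a

def OfT3 : Prop := SLS → SRT → SZF → SP3 → SNN → Q3BK.T3

def OfT2 : Prop := POut → SLS → SRT → SIZ → SRS → SOP → SEX → SCN → SDE → SLA → SZF → SFT → SDS →
  Q3BK.T2

end

end Pool.Agent.MP_ee8c61_ag.Q3FT
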