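import Pool.Agent.MP_ee8c61_ag.Q3FT.Spec
import Pool.Agent.MP_ee8c61_ag.Q3G.Gauss

/-! The fibre over a place. -/

namespace Pool.Agent.MP_ee8c61_ag.Q3FT

open M3 M3F Polynomial
open scoped IntermediateField

theorem rGS : SGS := by
  intro k L _ _ _ _ ι y e d h U hU
  let : Algebra k L := ι.toRingHom.toAlgebra
  have : IsScalarTower ℂ k L := .of_algebraMap_eq fun c => (ι.commutes c).symm
  have R : Q3G.Rat k y := by
    obtain ⟨Y, h1, h2, -⟩ := h.eul
    refine ⟨fun a => h.y0 (h2 ▸ kill_alg ((⊥ : IntermediateField k L).restrictScalars ℂ) Y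
      (fun x hx => ?_) (a.tower_top (⊥ : IntermediateField k L))), eq_top_iff.2 fun x _ => ?_⟩
    · obtain ⟨c, rfl⟩ := IntermediateField.mem_bot.1 hx
      exact h1 c
    · refine (IntermediateField.adjoin_le_iff (T := (k⟮y⟯).restrictScalars ℂ)).2 ?_
        (h.gen ▸ IntermediateField.mem_top (x := x))
      rintro _ (⟨c, rfl⟩ | rfl)
      · exact (k⟮y⟯).algebraMap_mem c
      · exact IntermediateField.mem_adjoin_simple_self k _
  obtain ⟨Γ, hΓ⟩ := R.exists_dv U 0 one_pos
  simp only [Nat.cast_one, one_mul, Int.cast_zero, zero_div] at hΓ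
  refine ⟨Γ, ⟨hU, one_pos, fun c => ?_⟩, .inr ?_, fun c => ?_⟩
  · have := (hΓ _).trans (R.w_base c)
    rw [Nat.cast_one, one_mul]
    exact_mod_cast this
  · have := (hΓ _).trans R.w_y
    exact_mod_cast this.ge
  · have n := X_sub_C_ne_zero (algebraMap ℂ k c)
    have q : y - algebraMap ℂ L c = aeval y (X - C (algebraMap ℂ k c)) := by
      rw [map_sub, aeval_X, aeval_C, ← IsScalarTower.algebraMap_apply]
    rw [q]
    rintro (a | a)
    · exact R.ne n a
    · have b := ((hΓ _).trans (R.w_poly n)).trans_le (Q3G.wp_le (i := 1) (by simp))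
      simp only [coeff_sub, coeff_X_one, coeff_C_succ, sub_zero, U.one, Int.cast_zero,
        mul_zero, add_zero] at b
      have : Γ.v (aeval y (X - C (algebraMap ℂ k c))) ≤ 0 := by exact_mod_cast b
      omega

end Pool.Agent.MP_ee8c61_ag.Q3FT
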