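import Pool.Agent.MP_ee8c61_ag.Q3FT.Spec

/-! Restriction of a valuation to a subfield; functions with one pole; residue fields. -/

namespace Pool.Agent.MP_ee8c61_ag.Q3FT

open M3 M3RESID M3F Q3 Q3BK WithZero Pool.Agent.MP_cce4c9_lc Pool.Agent.MP_cce4c9_lc.H87
open M3BK (Nrm)

noncomputable section

namespace RRs

variable {k L : Type} [Field k] [Algebra ℂ k] [Field L] [Algebra ℂ L]

/-- The values of a valuation on a subfield. -/
def vals (ι : k →ₐ[ℂ] L) (Γ : DV L) : AddSubgroup ℤ where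
  carrier := {n | ∃ c, c ≠ 0 ∧ Γ.v (ι c) = n}
  zero_mem' := ⟨1, one_ne_zero, by rw [map_one, Γ.one]⟩
  neg_mem' := fun {_} ⟨c, hc, e⟩ => ⟨c⁻¹, inv_ne_zero hc, by rw [map_inv₀, Γ.inv, e]⟩
  add_mem' := fun {_ _} ⟨c, hc, e⟩ ⟨c', hc', e'⟩ => ⟨c * c', mul_ne_zero hc hc', by
    rw [map_mul, Γ.mul _ _ ((map_ne_zero ι).2 hc) ((map_ne_zero ι).2 hc'), e, e']⟩

theorem mem_vals (ι : k →ₐ[ℂ] L) (Γ : DV L) (c : k) : Γ.v (ι c) ∈ vals ι Γ := by
  by_cases h : c = 0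
  · rw [h, map_zero, Γ.zero]
    exact zero_mem _
  · exact ⟨c, h, rfl⟩

theorem gen (H : AddSubgroup ℤ) : ∃ m : ℕ, (m : ℤ) ∈ H ∧ ∀ n ∈ H, (m : ℤ) ∣ n := by
  obtain ⟨a, ha⟩ := Int.subgroup_cyclic H
  have h1 : a ∈ H := ha ▸ AddSubgroup.subset_closure (Set.mem_singleton a)
  refine ⟨a.natAbs, ?_, fun n hn => ?_⟩
  · rcases Int.natAbs_eq a with h | h
    · exact h ▸ h1
    · have := neg_mem h1
      rwa [h, neg_neg] at this
  · rw [ha, AddSubgroup.mem_closure_singleton] at hn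
    obtain ⟨q, rfl⟩ := hn
    exact Int.natAbs_dvd.2 (Dvd.intro_left q rfl)

theorem algc (k : Type) [Field k] [Algebra ℂ k] : IsAlgClosed (K0 k) :=
  IsAlgClosed.of_ringEquiv ℂ (K0 k) (IntermediateField.botEquiv ℂ k).symm.toRingEquiv

omit [Algebra ℂ k] in
theorem pole {F : Type} [Field F] [IsAlgClosed F] [Algebra F k] (hk : IsFF F k) (P : Place F k) :
    ∃ h, 1 < P.val h ∧ ∀ Q : Place F k, Q ≠ P → Q.val h ≤ 1 := by
  obtain ⟨g, hg⟩ := H7.genus hk
  by_contra hn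
  have h1 : LL (Finsupp.single P ((g : ℤ) + 1)) ≤ Submodule.span F {(1 : k)} := fun h hh => by
    have h2 : ∀ Q : Place F k, Q ≠ P → Q.val h ≤ 1 := fun Q hQ => by
      simpa [Finsupp.single_eq_of_ne hQ] using hh Q
    obtain ⟨c, rfl⟩ := (H7.degF hk h).2.2 fun Q => by
      by_cases e : Q = P
      · exact not_lt.1 fun h3 => hn ⟨h, e ▸ h3, h2⟩
      · exact h2 Q e
    exact Submodule.mem_span_singleton.2 ⟨c, (Algebra.algebraMap_eq_smul_one c).symm⟩
  have h2 := Submodule.finrank_mono h1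
  have h3 := hg.ge (Finsupp.single P ((g : ℤ) + 1))
  rw [finrank_span_singleton one_ne_zero] at h2
  rw [Finsupp.degree_single] at h3
  omega

end RRs

open RRs

theorem rRS : SRS := by
  intro k L _ _ _ _ ι Γ
  obtain ⟨m, ⟨h1, h2⟩⟩ := gen (vals ι Γ)
  have hd : ∀ c, (m : ℤ) * (Γ.v (ι c) / m) = Γ.v (ι c) := fun c =>
    Int.mul_ediv_cancel' (h2 _ (mem_vals ι Γ c))
  rcases Nat.eq_zero_or_pos m with h0 | h0
  · exact Or.inl fun c => by rw [← hd c, h0, Nat.cast_zero, zero_mul]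
  have hm : (0 : ℤ) < m := by exact_mod_cast h0
  have hn : ∀ c : k, c ≠ 0 → ι c ≠ 0 := fun c hc => (map_ne_zero ι).2 hc
  refine Or.inr ⟨⟨fun c => Γ.v (ι c) / m, by rw [map_zero, Γ.zero, Int.zero_ediv],
    fun g h hg hh => ?_, fun g h hg hh hs => ?_⟩, m, ?_, h0, fun c => (hd c).symm⟩
  · refine mul_left_cancel₀ hm.ne' ?_
    rw [mul_add, hd, hd, hd, map_mul, Γ.mul _ _ (hn g hg) (hn h hh)]
  · have := Γ.add _ _ (hn g hg) (hn h hh) (by rw [← map_add]; exact hn _ hs)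
    rw [← map_add] at this
    rcases min_le_iff.1 this with e | e
    · exact (min_le_left _ _).trans (Int.ediv_le_ediv hm e)
    · exact (min_le_right _ _).trans (Int.ediv_le_ediv hm e)
  · obtain ⟨c, -, e⟩ := h1
    exact ⟨c, by show Γ.v (ι c) / m = 1; rw [e, Int.ediv_self hm.ne']⟩

theorem rOP : SOP := by
  intro k _ _ hk U hU
  have := algc k
  have hk0 := isFF0 hk
  obtain ⟨P, rfl⟩ := exists_place (hor_iff.2 hU)
  refine ⟨?_, fun g hg => ?_⟩
  · obtain ⟨h, h1, h2⟩ := pole hk0 P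
    refine ⟨h, not_le.1 fun h3 => ?_, fun U' hU' hne => ?_⟩
    · have := (M3F.mem_F P).1 (Or.inr h3 : h ∈ (dvOf P).F 0)
      rw [neg_zero, exp_zero] at this
      exact absurd h1 (not_lt.2 this)
    · obtain ⟨Q, rfl⟩ := exists_place (hor_iff.2 hU')
      refine (M3F.mem_F Q).2 ?_
      rw [neg_zero, exp_zero]
      exact h2 Q fun e => hne (e ▸ rfl)
  · have h1 := (M3F.mem_F P).1 hg
    rw [neg_zero, exp_zero] at h1
    obtain ⟨c, hc⟩ := H51.res hk0 P g h1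
    obtain ⟨c', e⟩ := IntermediateField.mem_bot.1 c.2
    refine ⟨c', (M3F.mem_F P).2 ?_⟩
    rw [show algebraMap ℂ k c' = algebraMap (K0 k) k c from e]
    by_cases h0 : P.val (g - algebraMap (K0 k) k c) = 0
    · rw [h0]
      exact zero_le
    · rw [← exp_log h0, ← exp_zero, exp_lt_exp] at hc
      rw [← exp_log h0, exp_le_exp]
      omega

end

end Pool.Agent.MP_ee8c61_ag.Q3FT
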