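import Pool.Agent.MP_ee8c61_ag.Q3FT.Spec

/-! The double curve at a simple root: two steps. -/

namespace Pool.Agent.MP_ee8c61_ag.Q3FT

open M3 M3RESID M3F Q3 Q3BK Polynomial
open M3BK (Nrm)

noncomputable section

/-- The curve is complete and has a place of negative exponent. -/
def SNG : Prop := ∀ (f : Po 3) (la : ℚ) (b : ℂ[X]) (M : Mod 3) (o j : M.J) (G : DV (M.v o).kf)
  (e : Dv (M.v o).kf) (e' : Dv G.kf), f ≠ 0 → H10.IsBS ![f] b → M.OK f →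
  ¬(X + C (la : ℂ)) ^ 2 ∣ b → M.ex la o = 0 → M.ex la j = 0 → Nrm G →
  M.IsCv o j (lift (M.v o).pl G) → (M.v o).pl.RsD (dvf f la) e → G.pl.RsD e e' →
  (∃ (U : DV G.kf) (a : ℚ), Nrm U ∧ Exp e' U a ∧ a < 0) ∧
    ∀ l, G.pl.π ((M.v o).pl.π (xx 3 l)) ∈ Set.range (algebraMap ℂ G.kf)

def OfNG : Prop := SLS → SRT → SRS → SOP → SEX → SZF → SFT → SNG

/-- The type of the curve on a wall. -/
def SDD : Prop := AllR fun {k L _ _ _ _} ι => ∀ (y : L) (e : Dv k) (D : SD L),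
  Rl ι y e D.d → OK1 D → 0 < D.t0 → D.Small → D.Pen → (∀ l, ∃ c : ℂ, D.x l = algebraMap ℂ L c) →
  (∃ (U : DV k) (a : ℚ), Nrm U ∧ Exp e U a ∧ a < 0) → Ty1 e

theorem sdd_of (h1 : SCN) (h2 : SDE) : SDD := fun k L _ _ _ _ ι y e D hR hD h0 hS hP hx _ => by
  obtain ⟨K, S, h⟩ := h1 L D hD h0 hS hP hx
  exact h2 k L ι y e D K S hR hD.vol h

def OfT2B : Prop := POut → SIZ → SNG → SDD → SLA → SZF → SFT → SDS → Q3BK.T2

end

end Pool.Agent.MP_ee8c61_ag.Q3FT
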