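import Pool.Agent.MP_ee8c61_ag.Q3FT.Spec
import Pool.Agent.MP_ee8c61_ag.Q3P.FK

/-! The family of curves on a wall. -/

namespace Pool.Agent.MP_ee8c61_ag.Q3FT

open M3 M3RESID M3F Q3 Q3P Finset

noncomputable section

variable {L : Type} [Field L] [Algebra ℂ L] {D : SD L} {t : L}

theorem cn_hon {Γ : DV L} {a : ℚ} (h : Hon D.d D.v Γ a) : ∃ r : ℕ, 0 < r ∧ a = 1 / r := by
  rcases h with ⟨r, h1, h2⟩ | ⟨h1, -⟩
  · exact ⟨r, by omega, h2⟩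
  · exact ⟨1, one_pos, by simp [h1]⟩

/-- The horizontal curves of a pencil. -/
theorem cn_pc (h : OK1 D) (h0 : 0 < D.t0) (p : Pc D t)
    (hc : ∀ Γ, Hor (Kz t) Γ → D.ex Γ = D.α Γ ∨ (D.α Γ = 0 ∧ Hon D.d D.v Γ (D.ex Γ))) :
    Cnt D (Kz t) {Γ | Hor (Kz t) Γ} := by
  obtain ⟨φ, n, hn, -, h2, o, ho, h3⟩ := p.death1 h.ok2 h0
  obtain ⟨Y, g, N, A, S, hD, hN⟩ := num0 h.vol.srf.fin h.vol.srf.rat p.der φ n D.α
  have cl := hN.cls (v := D.v) (fun Γ hΓ => ⟨_, h.vol.exp _ (p.cv hΓ), hc Γ hΓ⟩) hn h2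
  obtain ⟨-, P₀, a1, a2, -, a3⟩ := one_neg hD cl (cls_lt hD hN cl hn h2 ho h3)
  have e : ∀ P, D.ex (dvOf P) = A P := fun P => hN.uniq P _ (h.vol.exp _ (p.cv (hor_dvOf P)))
  refine ⟨fun Γ hΓ => p.cv hΓ, fun Γ hΓ => ?_, ⟨_, hor_dvOf P₀, by rw [e, a2]; exact a1⟩,
    fun Γ hΓ => hΓ.2, fun g hg => ?_⟩
  · obtain ⟨P, rfl⟩ := exists_place hΓ
    by_cases hP : P = P₀
    · exact Or.inl (by rw [hP, e, a2]; exact a1)
    refine Or.inr ?_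
    rcases a3 P hP with ⟨x, -⟩ | ⟨-, x, y, -⟩
    · exact ⟨1, one_pos, by simp [e, x]⟩
    · refine cn_hon ((hc _ hΓ).resolve_left fun z => ?_).2
      rw [e, x] at z
      exact y.ne' z
  · by_contra x
    obtain ⟨Γ, hΓ, y⟩ := exists_pole D.C h.vol.srf.fin p.der x
    rcases hg Γ hΓ with z | z
    · exact x (z ▸ zero_mem _)
    · omega

theorem cn_s0 (h : OK1 D) (hp : D.Pt) (hx : ∀ l, ∃ c : ℂ, D.x l = algebraMap ℂ L c) :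
    ∃ s, s ≠ 0 ∧ ∀ Γ, Cv D.x Γ → (Γ.v s : ℚ) = -(D.m * D.th D.t0 Γ) := by
  obtain ⟨Γ₀, h₀⟩ := exists_cv D.C h.vol.srf.fin hx
  obtain ⟨s, ⟨h1, h2, -⟩, -⟩ := h.sem.dg0 _ h₀
  refine ⟨s, h2, fun Γ hΓ => ?_⟩
  obtain ⟨r, ⟨g1, g2, -⟩, g3⟩ := h.sem.dg0 _ hΓ
  obtain ⟨c, hc⟩ : ∃ c : ℂ, s / r = algebraMap ℂ L c := by
    by_contra! hn
    obtain ⟨X, hX⟩ := exists_der D.C h.vol.srf.fin (tr_of_nc hn)
    exact hX (hp _ (rat_mem _ g1 h1) X)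
  have := Γ.cst c
  rw [← hc, div_eq_mul_inv, Γ.mul _ _ h2 (inv_ne_zero g2), Γ.inv] at this
  rw [← g3]
  exact_mod_cast (by omega : Γ.v s = Γ.v r)

/-- A curve that is not contracted and has negative class. -/
theorem cn_neg (h : OK1 D) (h0 : 0 < D.t0) (hp : D.Pt)
    (hx : ∀ l, ∃ c : ℂ, D.x l = algebraMap ℂ L c) :
    ∃ Γ, Cv D.x Γ ∧ ¬Null D.x D.S1 Γ ∧ D.α Γ < 0 := by
  by_contra! hn0
  obtain ⟨s₀, a0, a1⟩ := cn_s0 h hp hx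
  have h1 := h.sem.t1
  obtain ⟨r, hr, p₀, p₁, e₀, e₁⟩ : ∃ r : ℚ, 0 < r ∧ ∃ p₀ p₁ : ℤ, r * D.t0 = p₀ ∧ r * D.t1 = p₁ :=
    ⟨D.t0.den * D.t1.den, by positivity, D.t0.num * D.t1.den, D.t1.num * D.t0.den, by
      push_cast; rw [← Rat.mul_den_eq_num]; ring, by push_cast; rw [← Rat.mul_den_eq_num]; ring⟩
  have q0 : (0 : ℚ) < p₀ := e₀ ▸ mul_pos hr h0
  have q1 : (p₀ : ℚ) < p₁ := e₀ ▸ e₁ ▸ mul_lt_mul_of_pos_left h1 hr
  have hm : (0 : ℚ) < D.m := by exact_mod_cast h.sem.m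
  have key : ∀ s ∈ D.S1, s ≠ 0 → ∃ c : ℂ, s ^ p₀ / s₀ ^ p₁ = algebraMap ℂ L c := fun s b1 b0 =>
    h.ok2.fix hx fun Γ hΓ hn => Or.inr (by
      have k : (Γ.v (s ^ p₀ / s₀ ^ p₁) : ℚ) = D.m * (p₁ - p₀) * D.α Γ +
          p₀ * (Γ.v s + D.m * D.th D.t1 Γ) := by
        rw [div_eq_mul_inv, Γ.mul _ _ (zpow_ne_zero _ b0) (inv_ne_zero (zpow_ne_zero _ a0)),
          Γ.inv, dv_zpow Γ b0, dv_zpow Γ a0]
        push_cast
        rw [a1 Γ hΓ, th_eq, th_eq, ← e₀, ← e₁]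
        ring
      have k1 := dg_le (h.sem.dg1 _ hΓ) b1 b0
      have k2 : (0 : ℚ) ≤ Γ.v (s ^ p₀ / s₀ ^ p₁) := by
        rw [k]
        exact add_nonneg (mul_nonneg (mul_pos hm (sub_pos.2 q1)).le (hn0 Γ hΓ hn))
          (mul_nonneg q0.le (by linarith))
      exact_mod_cast k2)
  have := cz L
  have z : D.C.D 0 = 0 := h.big _ fun g hg => by
    have : RF D.x D.S1 ≤ cst {D.C.D 0} := IntermediateField.adjoin_le_iff.2 (by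
      rintro _ (⟨l, rfl⟩ | ⟨s, hs, s', hs', rfl⟩) X -
      · obtain ⟨c, e'⟩ := hx l
        rw [e', Derivation.map_algebraMap]
      · by_cases b : s = 0
        · simp [b]
        by_cases b' : s' = 0
        · simp [b']
        obtain ⟨c, hc⟩ := key s hs b
        obtain ⟨c', hc'⟩ := key s' hs' b'
        have u : (s' / s) ^ p₀ = algebraMap ℂ L (c' / c) := by
          rw [map_div₀, ← hc, ← hc', div_zpow, div_div_div_cancel_right₀ (zpow_ne_zero _ a0)]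
        have w := congrArg X u
        rw [Derivation.map_algebraMap, Derivation.leibniz_zpow, zsmul_eq_mul, smul_eq_mul] at w
        have q2 : (p₀ : L) ≠ 0 := by exact_mod_cast (by exact_mod_cast q0.ne' : p₀ ≠ 0)
        exact (mul_eq_zero.1 ((mul_eq_zero.1 w).resolve_left q2)).resolve_left
          (zpow_ne_zero _ (div_ne_zero b' b)))
    exact this hg _ rfl
  have := D.C.dual 0 0
  simp [z] at this

/-- The curves that are not contracted, if there is one neighbour only. -/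
theorem cn_one (h : OK1 D) (h0 : 0 < D.t0) (hp : D.Pt) (ho : D.One)
    (hx : ∀ l, ∃ c : ℂ, D.x l = algebraMap ℂ L c) :
    Cnt D ⊥ {Γ | Cv D.x Γ ∧ ¬Null D.x D.S1 Γ} := by
  obtain ⟨Γ₀, c₀, n₀, a₀⟩ := cn_neg h h0 hp hx
  obtain ⟨j, hj⟩ := (h.kvl Γ₀ c₀ n₀).resolve_right fun x => by simp [SD.α, x.1] at a₀
  have e₀ : D.al j < 0 := core_sum hj D.al ▸ a₀
  refine ⟨fun Γ hΓ => hΓ.1, fun Γ hΓ => ?_, ⟨Γ₀, ⟨c₀, n₀⟩, hj.1 ▸ a₀⟩, fun Γ _ g hg => ?_,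
    fun g hg => ?_⟩
  · refine (h.kvl Γ hΓ.1 hΓ.2).imp (fun ⟨k, hk⟩ => ?_) fun x => cn_hon x.2
    obtain rfl := ho j k Γ₀ Γ c₀ n₀ (by rw [hj.2.1]; exact one_ne_zero) hΓ.1 hΓ.2
      (by rw [hk.2.1]; exact one_ne_zero)
    rw [hk.1, SD.α, core_sum hk D.al]
    exact e₀
  · obtain ⟨c, rfl⟩ := IntermediateField.mem_bot.1 hg
    exact Γ.cst_mem c
  · obtain ⟨c, rfl⟩ := h.ok2.fix hx fun Γ a b => hg Γ ⟨a, b⟩
    exact IntermediateField.algebraMap_mem _ c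

theorem rCN : SCN := fun L _ _ D h h0 hs hq hx => by
  by_cases hp : D.Pt
  · rcases hq hp with ⟨t, ht, hc⟩ | ho
    · have p : Pc D t := ⟨ht, fun g hg X _ => hp g hg X⟩
      refine ⟨_, _, cn_pc h h0 p fun Γ hΓ => ?_⟩
      by_cases e : Null D.x D.S1 Γ
      · exact Or.inl (hc Γ (p.cv hΓ) e (hΓ.nc (self_mem_Kz t) (ne_of_der ht)))
      · exact cls_of1 h.kvl (p.cv hΓ) e
    · exact ⟨_, _, cn_one h h0 hp ho hx⟩
  · obtain ⟨t, hm, p⟩ := exists_pc1 hs hp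
    exact ⟨_, _, cn_pc h h0 p fun Γ hΓ =>
      cls_of1 h.kvl (p.cv hΓ) fun e => p.nn1 h.ok2 hm hΓ (h.nul Γ (p.cv hΓ) e).1⟩

end

end Pool.Agent.MP_ee8c61_ag.Q3FT
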