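import Pool.Agent.MP_ee8c61_ag.Q3FT.Spec
import Pool.Agent.MP_ee8c61_ag.M3E.Final
import Pool.Agent.MP_ee8c61_ag.M3.FinK

/-! At time zero the sections come from the divisor of the exponents. -/

namespace Pool.Agent.MP_ee8c61_ag.Q3FT

open M3

theorem rDS : SDS := by
  intro f la M C o Y hM _ hY ht
  have K := (kout_of M3E.eout).ka 3 f M C hM
  have B := M3E.eout.dc 3 f C.W M C.D C.ok hM
  refine ⟨C.D.pf Y.c0, fun j => ?_, fun g hg => B.push _ (hY.T0.1 g hg)⟩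
  have h1 := congrFun hY.c0 (C.D.e j)
  have h2 : C.pt la o C.t = M.nu - la • M.q M.aa := by
    funext i
    simp [Ch.pt, ht, Mod.ex, Mod.nu, Mod.q, Mod.aa]
  have h3 := K.le M.nu (by simpa [ht] using C.mem) (C.D.e j)
  have h4 := congrFun B.aa (C.D.e j)
  rw [B.pb_e] at h3 h4
  rw [h2, map_sub, map_smul, K.aa] at h1
  simp only [Mod.q, Pi.smul_apply, Pi.sub_apply, smul_eq_mul, nsmul_eq_mul, ← h4] at h1
  rw [Dom.pf, h1]
  refine mul_le_mul_of_nonneg_left ?_ (Nat.cast_nonneg _)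
  simp only [Mod.nu, Mod.ex, Mod.aa, Int.cast_natCast] at h3 ⊢
  linarith

end Pool.Agent.MP_ee8c61_ag.Q3FT
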