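import Pool.Agent.MP_ee8c61_ag.Q3FT.Spec2
import Pool.Agent.MP_ee8c61_ag.Q3FT.RNn

/-! At a simple root the double curve is complete and has a place of negative exponent. -/

namespace Pool.Agent.MP_ee8c61_ag.Q3FT

open M3 M3RESID M3F M3E Q3 Finset RNn

theorem rNG : OfNG := by
  intro hLS hRT hRS hOP hEX hZF hFT f la b M o j G e e' hf hb hM h2 eo ej hG hV he he'
  obtain ⟨W, D, i, hW, hZ⟩ := hZF f la M o j _ hM eo ej hV
  have B := eout.bas 3 f W hW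
  have T := (kout_of eout).th 3 f W M D hW hM (W.v i).O
  obtain ⟨-, -, d, -, hd, -⟩ := exists_rat (P := (W.v i).pl) hW hZ.ex rfl
  obtain ⟨ι, y, hR, hπ⟩ :=
    hFT f la W M D o j i G e e' _ (W.v i).pl d hW hM eo ej hG hV hZ he he' rfl hd
  obtain ⟨a, ha⟩ := hM.cov _ hV.2.1
  have H := mt (hLS f la W i d hf hW hZ.ex hd) fun ⟨g, g1, g2⟩ => by
    have s := B.thru_le _ i (B.ov_v i) le_rfl
    have := hRT f la b M {o, j} (W.v i).O g hf hb hM (B.ov_v i) (by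
      intro l hl
      simp only [mem_insert, mem_singleton] at hl
      rcases hl with rfl | rfl
      exacts [⟨eo, (T _ (B.ov_v i)).2 ⟨i, s, hZ.mo⟩⟩,
        ⟨ej, (T _ (B.ov_v i)).2 ⟨i, s, by rw [hZ.mj]; exact one_pos⟩⟩]) g1 fun m hm => by
        have := g2 (D.e m) (by rwa [ex_e D hW hM])
        rwa [D.v] at this
    rw [card_pair hV.1.symm] at this
    exact h2 this
  simp only [not_forall, not_le] at H
  obtain ⟨Γ, c, h1, h3, h4, h5, h6⟩ := H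
  obtain ⟨x0, x⟩ := hEX _ _ ι y e' d hR
  obtain ⟨x1, x2⟩ := x Γ c h1 h3 h5
  obtain ⟨U, m, hU⟩ := (hRS _ _ ι Γ).resolve_left fun h => absurd (x1 h) (not_le.2 h6)
  obtain ⟨a', ha'⟩ := x0 U hU.1
  obtain ⟨⟨n, hn⟩, -⟩ := x2 U m a' hU ha'
  refine ⟨⟨U, a', hU.1, ha', not_le.1 fun h => ?_⟩, fun l => ?_⟩
  · exact absurd (hn ▸ h6) (not_lt.2 (by positivity))
  have z : ∀ p, U.v (G.pl.π ((M.v o).pl.π (ip 3 p))) = 0 := fun p => by
    have := h4 p
    rw [hπ a ha _ (Lc.of_mem (hM.pol a p)), hU.2.2] at this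
    exact (mul_eq_zero.1 this).resolve_left (by exact_mod_cast hU.2.1.ne')
  obtain ⟨c, hc⟩ := (hOP _ hR.ff U hU.1).2 _ (Or.inr (z (MvPolynomial.X l)).ge)
  have := z (MvPolynomial.X l - algebraMap ℂ _ c)
  have hx := hV.2.1 (MvPolynomial.X l)
  rw [map_sub, AlgHom.commutes, Pl.π_sub hx.1 (cst_F _ _), Pl.π_cst,
    Pl.π_sub hx.2 (cst_F _ _), Pl.π_cst] at this
  exact ⟨c, (sub_eq_zero.1 (hc.resolve_right (by omega))).symm⟩

end Pool.Agent.MP_ee8c61_ag.Q3FT
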