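import Pool.Agent.MP_ee8c61_ag.Q3FT.RRs
import Pool.Agent.MP_ee8c61_ag.Q3FT.RGs
import Pool.Agent.MP_ee8c61_ag.Q3FT.REx
import Pool.Agent.MP_ee8c61_ag.Q3FT.RZf
import Pool.Agent.MP_ee8c61_ag.Q3FT.RDs
import Pool.Agent.MP_ee8c61_ag.Q3FT.RP3
import Pool.Agent.MP_ee8c61_ag.Q3FT.RNn
import Pool.Agent.MP_ee8c61_ag.Q3FT.RFt
import Pool.Agent.MP_ee8c61_ag.Q3FT.RNg
import Pool.Agent.MP_ee8c61_ag.Q3FT.RT2B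
import Pool.Agent.MP_ee8c61_ag.Q3FD.Br
import Pool.Agent.MP_ee8c61_ag.Q3BK.Bk
import Pool.Agent.MP_ee8c61_ag.Q3P.Out
import Pool.Agent.MP_ee8c61_ag.Q3FG.Out
import Pool.Agent.MP_ee8c61_ag.Q3RT.Res

/-! The theorem from the statement on simple roots. -/

namespace Pool.Agent.MP_ee8c61_ag.Q3FT

theorem t3 : Q3BK.T3 := rT3 Q3FG.sls Q3RT.srt rZF rP3 rNN

theorem t2 (h : Q3.SIZ) : Q3BK.T2 :=
  rT2B Q3P.pout h (rNG Q3FG.sls Q3RT.srt rRS rOP rEX rZF rFT) (Q3FD.de rRS rGS rEX)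
    (Q3FD.la rRS rOP rGS rEX) rZF rFT rDS

theorem main_of (h : Q3.SIZ) : Q3.Main2 := Q3BK.top2 t3 (t2 h)

end Pool.Agent.MP_ee8c61_ag.Q3FT
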