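import Pool.Agent.MP_ee8c61_ag.Q3FT.Spec
import Pool.Agent.MP_ee8c61_ag.M3RESID.U3

/-! A weighted blow-up of a double curve in coordinates. -/

namespace Pool.Agent.MP_ee8c61_ag.Q3FT

open M3 M3RESID Q3BK Polynomial Pool.Agent.MP_cce4c9_lc.H87

noncomputable section

variable {K k L : Type} [Field K] [Algebra ℂ K] [Field k] [Algebra ℂ k] [Field L] [Algebra ℂ L]

theorem at_of_jac {n : ℕ} {C C' : Co K n} {o : DV K} {i i' : Fin n} (h : C'.At o i')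
    (hz : ∀ l, C.z l ∈ o.F 0) (hJ : o.v (C.jac C') = 0) (hi : C.z i ∈ o.F 1) : C.At o i := by
  refine Co.at_of h.vz hz (fun j => Co.reg_of h.D fun l => ?_) hi
  have h1 := Co.jac_mem C C' (A := oA o) (fun l i => h.D i _ (hz l)) (v := C.D j) (g := 1)
    (fun l => by rw [C.dual]; split_ifs <;> simp [one_mem, zero_mem]) l
  have h2 := F_div (show _ ∈ o.F 0 from h1) (C.jac C')
  rwa [hJ, sub_zero, one_mul, mul_div_cancel_left₀ _ (C.jac_ne C')] at h2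

theorem rat1_of {G : Pl L k} {C₀ C : Co L 2} {d : Dv L} {e : Dv k} {q : ℕ} {ψ : L} (hq : 0 < q)
    (hψ : ψ ≠ 0) (hd : ∀ X, d.δ X = C₀.dv.δ X + X ψ / (q * ψ)) (hA : C.At G.o 0)
    (he : G.RsD d e) {D : VF k} (hD : G.Rs (C.D 1) D) (D0 : D ≠ 0) : Rat1 e := by
  have := M3F.cz L
  have := M3F.cz k
  have J0 := C₀.jac_ne C
  have z0 := C.ne 0
  have h1 := mul_ne_zero hψ (zpow_ne_zero (q : ℤ) J0)
  obtain ⟨N, hN⟩ : ∃ N, N = -G.o.v (ψ * C₀.jac C ^ (q : ℤ)) := ⟨_, rfl⟩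
  have h2 := mul_ne_zero h1 (zpow_ne_zero N z0)
  have h3 : G.o.v (ψ * C₀.jac C ^ (q : ℤ) * C.z 0 ^ N) = 0 := by
    rw [G.o.mul _ _ h1 (zpow_ne_zero N z0), v_zpow _ z0, hA.vz, hN]
    ring
  have q0 : (q : L) ≠ 0 := Nat.cast_ne_zero.2 hq.ne'
  have q1 : G.o.v q = 0 := by simpa using v_cst G.o q
  refine ⟨D, q, _, D0, hq, Pl.π_ne h2 h3, ?_⟩
  have h4 : d.δ (C.D 1) = C.D 1 (ψ * C₀.jac C ^ (q : ℤ) * C.z 0 ^ N) /
      (ψ * C₀.jac C ^ (q : ℤ) * C.z 0 ^ N) / q := by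
    rw [dlog_mul _ h1 (zpow_ne_zero N z0), dlog_mul _ hψ (zpow_ne_zero _ J0), dlog_zpow _ z0,
      dlog_zpow _ J0, hd, Co.dv_jac C₀ C, Dv.tw_δ, Co.dv_δ, Fin.sum_univ_two, C.dual, C.dual]
    simp only [map_one, Int.cast_natCast]
    simp
    field_simp
    ring
  rw [← he _ _ hD, h4, Pl.π_div (LV_dlog hD.1 _) q0 q1, hD.dlog h2 h3, div_div, mul_comm (q : k)]
  congr 2
  simpa using G.π_cst q

/-- The coordinates `z 1`, `z 0 / z 1 ^ m`, `z 2`. -/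
def cq (C : Co K 3) (m : ℤ) : Co K 3 where
  z := ![C.z 1, C.z 0 * C.z 1 ^ (-m), C.z 2]
  D := ![C.D 1 + (m * C.z 0 / C.z 1) • C.D 0, C.z 1 ^ m • C.D 0, C.D 2]
  ne i := by
    fin_cases i
    exacts [C.ne 1, mul_ne_zero (C.ne 0) (zpow_ne_zero _ (C.ne 1)), C.ne 2]
  dual i j := by
    have h1 := C.ne 1
    have h2 := zpow_ne_zero m h1
    have h3 : ∀ l, C.D l (C.z 0 * C.z 1 ^ (-m)) = C.z 1 ^ (-m) * C.D l (C.z 0) -
        m * C.z 0 * C.z 1 ^ (-m) * (C.D l (C.z 1) / C.z 1) := fun l => by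
      rw [Derivation.leibniz, Dv.zpow_der _ _ h1]
      simp only [smul_eq_mul, Int.cast_neg]
      ring
    fin_cases i <;> fin_cases j <;> simp [-zpow_neg, -Derivation.leibniz, h3, C.dual] <;>
      rw [zpow_neg] <;> field_simp <;> simp
  span v h := C.span v fun i => by
    have h0 : v (C.z 1) = 0 := h 0
    have h1 : v (C.z 0 * C.z 1 ^ (-m)) = 0 := h 1
    rw [Derivation.leibniz, Dv.zpow_der _ _ (C.ne 1), h0] at h1
    fin_cases i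
    · simpa [C.ne 1, zpow_ne_zero] using h1
    · exact h0
    · exact h 2

theorem cq_th0 (C : Co K 3) (m : ℤ) : (cq C m).th 0 = C.th 1 + (m : K) • C.th 0 := by
  have := C.ne 1
  show C.z 1 • (C.D 1 + (m * C.z 0 / C.z 1) • C.D 0) = C.z 1 • C.D 1 + (m : K) • C.z 0 • C.D 0
  rw [smul_add, smul_smul, smul_smul, mul_div_cancel₀ _ this]

theorem cq_th1 (C : Co K 3) (m : ℤ) : (cq C m).th 1 = C.th 0 := by
  show (C.z 0 * C.z 1 ^ (-m)) • C.z 1 ^ m • C.D 0 = C.z 0 • C.D 0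
  rw [smul_smul, mul_assoc, ← zpow_add₀ (C.ne 1), neg_add_cancel, zpow_zero, mul_one]

/-- The local ring of the curve. -/
structure Lr (C : Co K 3) (O : Subalgebra ℂ K) (d : Dv K) (φ : O →ₐ[ℂ] k) (e : Dv k) : Prop where
  st : C.St O
  a0 : d.δ (C.th 0) / C.z 0 ∈ O
  a1 : d.δ (C.th 1) / C.z 1 ∈ O
  a2 : d.δ (C.D 2) ∈ O
  fr : ∀ g, ∃ s ∈ O, s ≠ 0 ∧ s * g ∈ O
  sur : Function.Surjective φ
  ker : ∀ g : O, φ g = 0 → ∃ h ∈ O, ∃ h' ∈ O, (g : K) = h * C.z 0 + h' * C.z 1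
  z2 : φ ⟨_, st.z 2⟩ ≠ 0
  der : ∀ θ : VF k, ∃ c : O, (∀ g : O, θ (φ g) = φ c * φ ⟨_, st.D 2 g g.2⟩) ∧
    e.δ θ = φ c * φ ⟨_, a2⟩ + φ ⟨_, st.D 2 c c.2⟩

variable {C : Co K 3} {O : Subalgebra ℂ K} {d : Dv K} {φ : O →ₐ[ℂ] k} {e : Dv k} {o : DV K}
  {m : ℕ}

theorem Lr.at_cq (h : Lr C O d φ e) (le : ∀ g ∈ O, g ∈ o.F 0) (hm : 0 < m)
    (v0 : o.v (C.z 0) = m) (v1 : o.v (C.z 1) = 1) (hE : Exp d o 0) {C' : Co K 3} {i : Fin 3}
    (hA : C'.At o i) : (cq C m).At o 0 := by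
  have vy : o.v ((cq C m).z 1) = 0 := by
    show o.v (C.z 0 * C.z 1 ^ (-(m : ℤ))) = 0
    rw [o.mul _ _ (C.ne 0) (zpow_ne_zero _ (C.ne 1)), v_zpow _ (C.ne 1), v0, v1]
    ring
  have f0 : C.z 0 ∈ o.F 1 := Or.inr (by omega)
  have f1 : C.z 1 ∈ o.F 1 := Or.inr v1.ge
  have hz : ∀ l, (cq C m).z l ∈ o.F 0 := fun l => by
    fin_cases l
    exacts [le _ (h.st.z 1), Or.inr vy.ge, le _ (h.st.z 2)]
  refine at_of_jac hA hz ?_ f1
  have E1 := ((hA.exp_dv.tw ((cq C m).jac_ne C') 1).tw ((cq C m).ne 0) (-1)).tw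
    ((cq C m).ne 1) (-1)
  rw [← Co.dv_jac] at E1
  have h1 := E1.of_eul hA.vz hA.eul
  have h2 := hE.of_eul hA.vz hA.eul
  have b0 : d.δ (C.th 0) ∈ o.F 1 := by
    simpa [C.ne 0] using F_mul0' f0 (le _ h.a0) |>.imp id id |> fun x =>
      F_of_eq x (mul_div_cancel₀ (d.δ (C.th 0)) (C.ne 0)).symm
  have b1 : d.δ (C.th 1) ∈ o.F 1 :=
    F_of_eq (F_mul0' f1 (le _ h.a1)) (mul_div_cancel₀ (d.δ (C.th 1)) (C.ne 1)).symm
  have c0 : d.δ ((cq C m).th 0) ∈ o.F 1 := by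
    rw [cq_th0, map_add, d.smul, Int.cast_natCast, Derivation.map_natCast, add_zero]
    exact add_mem b1 (F_mul0 (by simpa using int_F (o := o) m) b0)
  have c1 : d.δ ((cq C m).th 1) ∈ o.F 1 := cq_th1 C m ▸ b0
  obtain ⟨θ, hθ⟩ : ∃ θ, θ = C'.th i := ⟨_, rfl⟩
  have eu : Eul o θ := hθ ▸ hA.eul
  rw [← hθ] at h1 h2
  have h3 := add_mem (add_mem (F_mul0 (LV_dlog eu.mem ((cq C m).z 0)) c0)
    (F_mul0 (LV_dlog eu.mem ((cq C m).z 1)) c1)) (F_mul0' (eu.zero (hz 2)) (le _ h.a2))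
  have h4 := sub_mem (sub_mem h2 h1) h3
  have h5 : algebraMap ℂ K (o.v ((cq C m).jac C')) ∈ o.F 1 := by
    refine F_of_eq h4 ?_
    have n0 := (cq C m).ne 0
    have n1 := (cq C m).ne 1
    rw [Dv.tw_δ, Dv.tw_δ, (cq C m).δ_exp d θ, Co.dv_δ, vy, show o.v ((cq C m).z 0) = 1 from v1]
    simp only [Fin.sum_univ_three, Co.th, d.smul, (cq C m).dual, if_true, map_add, map_mul,
      map_neg, map_one, map_zero, Int.cast_zero, Int.cast_one]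
    rw [show (cq C m).D 2 = C.D 2 from rfl]
    field_simp
    ring
  exact_mod_cast cst_F1 h5

theorem Lr.rl (h : Lr C O d φ e) (hk : IsFF ℂ k) (hr : Rat1 e) {P : Pl K L}
    (le : ∀ g ∈ O, g ∈ P.o.F 0) (hm : 0 < m) (v0 : P.o.v (C.z 0) = m) (v1 : P.o.v (C.z 1) = 1)
    (hE : Exp d P.o 0) {C' : Co K 3} {i : Fin 3} (hA : C'.At P.o i) {d' : Dv L}
    (hd : P.RsD d d') : ∃ (ι : k →ₐ[ℂ] L) (y : L), Rl ι y e d' ∧ ∀ g : O, P.π g = ι (φ g) := by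
  have A := h.at_cq le hm v0 v1 hE hA
  have f0 : C.z 0 ∈ P.o.F 1 := Or.inr (by omega)
  have f1 : C.z 1 ∈ P.o.F 1 := Or.inr v1.ge
  obtain ⟨ι, hι⟩ : ∃ ι : k →ₐ[ℂ] L, ∀ g : O, P.π g = ι (φ g) :=
    ⟨φ.liftOfSurjective h.sur (P.hom O le) fun g hg => by
      obtain ⟨a, ha, b, hb, e⟩ := h.ker g hg
      exact P.π_F1 (e ▸ add_mem (F_mul0 (le a ha) f0) (F_mul0 (le b hb) f1)),
      fun g => (AlgHom.liftOfSurjective_apply φ h.sur (P.hom O le) _ g).symm⟩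
  obtain ⟨y, hy⟩ : ∃ y, y = (cq C m).z 1 := ⟨_, rfl⟩
  have vy : P.o.v y = 0 := hy ▸ A.vz' (by decide)
  have y0 : y ≠ 0 := hy ▸ (cq C m).ne 1
  have yF : y ∈ P.o.F 0 := Or.inr vy.ge
  have l1 : C.th 0 ∈ LV P.o 0 := cq_th1 C m ▸ LV_smul0 (A.z_F 1) (A.D_LV (by decide))
  have l2 : C.D 2 ∈ LV P.o 0 := A.D_LV (j := 2) (by decide)
  obtain ⟨Y, hY⟩ := Pl.exists_Rs l1
  have Y1 : ∀ c, Y (ι c) = 0 := fun c => by
    obtain ⟨g, rfl⟩ := h.sur c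
    rw [← hι, ← hY.2 _ (le _ g.2)]
    exact P.π_F1 (F_mul0' f0 (le _ (h.st.D 0 _ g.2)))
  have Y2 : Y (P.π y) = P.π y := by
    rw [← hY.2 _ yF, ← cq_th1 C m, hy, Co.th_z, if_pos rfl]
  have p0 := Pl.π_ne y0 vy
  refine ⟨ι, P.π y, ⟨hk, hr, ?_, p0, ⟨Y, Y1, Y2, ?_⟩, fun θ => ?_⟩, hι⟩
  · have ev : ∀ p : O[X], aeval y p ∈ P.o.F 0 ∧
        P.π (aeval y p) = (p.map (φ : O →+* k)).eval₂ (ι : k →+* L) (P.π y) := fun p => by
      induction p using Polynomial.induction_on with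
      | C a => simpa using ⟨le _ a.2, hι a⟩
      | add p q hp hq =>
        rw [map_add, Polynomial.map_add, eval₂_add, P.add _ hp.1 _ hq.1, hp.2, hq.2]
        exact ⟨add_mem hp.1 hq.1, rfl⟩
      | monomial n a hp =>
        rw [pow_succ, ← mul_assoc, map_mul, aeval_X, Polynomial.map_mul, map_X, eval₂_mul_X,
          P.mul _ hp.1 _ yF, hp.2]
        exact ⟨F_mul0 hp.1 yF, rfl⟩
    have tr : ∀ q : k[X], q.eval₂ (ι : k →+* L) (P.π y) = 0 → q = 0 := fun q hq => by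
      by_contra q0
      refine p0 (Y2.symm.trans (M3F.kill_alg ι.fieldRange Y ?_
        ⟨q.map ((ι : k →+* L).codRestrict ι.fieldRange fun c => ⟨c, rfl⟩), map_ne_zero q0, ?_⟩))
      · rintro _ ⟨c, rfl⟩
        exact Y1 c
      · rw [aeval_def, eval₂_map]
        exact hq
    obtain ⟨B, hB⟩ : ∃ B : Subalgebra ℂ K, ∀ g, g ∈ B ↔ ∃ p : O[X], aeval y p = g :=
      ⟨(aeval (R := O) y).range.restrictScalars ℂ, fun _ => Iff.rfl⟩
    have b1 : ∀ g ∈ O, g ∈ B := fun g hg => (hB g).2 ⟨Polynomial.C ⟨g, hg⟩, by simp⟩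
    have b2 : y ∈ B := (hB y).2 ⟨X, by simp⟩
    have lz : Lz B (oA P.o) := lz_oA v1 (fun g => by
      obtain ⟨s, s1, s2, s3⟩ := h.fr g
      exact ⟨s, b1 s s1, s2, b1 _ s3⟩) (fun g hg => by
      obtain ⟨p, rfl⟩ := (hB g).1 hg
      exact (ev p).1) fun g hg g1 => by
        obtain ⟨p, rfl⟩ := (hB g).1 hg
        have h1 := tr _ ((ev p).2.symm.trans (P.π_F1 g1))
        rw [aeval_eq_sum_range, Finset.sum_div]
        refine sum_mem fun n _ => ?_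
        obtain ⟨a, ha, b, hb, e⟩ := h.ker (p.coeff n) (by simpa using congrArg (coeff · n) h1)
        obtain ⟨r, rfl⟩ : ∃ r, m = r + 1 := ⟨m - 1, by omega⟩
        have e2 : p.coeff n • y ^ n / C.z 1 = (a * y * C.z 1 ^ r + b) * y ^ n := by
          have n1 := C.ne 1
          have e3 : C.z 0 = y * C.z 1 ^ (r + 1) := by
            rw [hy]
            show _ = C.z 0 * C.z 1 ^ (-((r + 1 : ℕ) : ℤ)) * _
            rw [zpow_neg, zpow_natCast, inv_mul_cancel_right₀ (pow_ne_zero _ n1)]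
          rw [Subalgebra.smul_def, smul_eq_mul, e, e3]
          field_simp
          ring
        rw [e2]
        exact mul_mem (add_mem (mul_mem (mul_mem (b1 a ha) b2) (pow_mem (b1 _ (h.st.z 1)) r))
          (b1 b hb)) (pow_mem b2 n)
    have mem : ∀ g ∈ B, P.π g ∈ IntermediateField.adjoin ℂ (Set.range ι ∪ {P.π y}) :=
      fun g hg => by
        obtain ⟨p, rfl⟩ := (hB g).1 hg
        rw [(ev p).2, eval₂_eq_sum_range]
        exact sum_mem fun n _ => mul_mem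
          (IntermediateField.subset_adjoin _ _ (Or.inl ⟨_, rfl⟩))
          (pow_mem (IntermediateField.subset_adjoin ℂ (Set.range ι ∪ {P.π y}) (Or.inr rfl)) n)
    refine eq_top_iff.2 fun z _ => ?_
    obtain ⟨s, hs, t, ht, -, rfl⟩ := Pl.frac lz z
    exact div_mem (mem t ht) (mem s hs)
  · rw [← hd _ _ hY]
    exact P.π_F1 (F_of_eq (F_mul0' f0 (le _ h.a0))
      (mul_div_cancel₀ (d.δ (C.th 0)) (C.ne 0)).symm)
  · obtain ⟨c, c1, c2⟩ := h.der θ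
    obtain ⟨T, hT⟩ := Pl.exists_Rs (LV_smul0 (le _ c.2) l2)
    refine ⟨T, fun a => ?_, ?_, ?_⟩
    · obtain ⟨g, rfl⟩ := h.sur a
      rw [← hι, ← hT.2 _ (le _ g.2), c1, map_mul, ← hι, ← hι]
      exact P.mul _ (le _ c.2) _ (le _ (h.st.D 2 _ g.2))
    · rw [← hT.2 _ yF, Derivation.smul_apply, hy, show C.D 2 = (cq C m).D 2 from rfl,
        (cq C m).dual, if_neg (by decide), smul_zero, P.π_zero]
    · rw [← hd _ _ hT, d.smul, c2, map_add, map_mul, ← hι, ← hι, ← hι,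
        P.add _ (F_mul0 (le _ c.2) (le _ h.a2)) _ (le _ (h.st.D 2 _ c.2)),
        P.mul _ (le _ c.2) _ (le _ h.a2)]

end

end Pool.Agent.MP_ee8c61_ag.Q3FT
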