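import Pool.Agent.MP_ee8c61_ag.Q3FT.Spec
import Pool.Agent.MP_ee8c61_ag.Q3FD.Fd

/-! The type of the curve at time zero. -/

namespace Pool.Agent.MP_ee8c61_ag.Q3FT

open M3 M3RESID M3F Q3 Q3P Q3BK
open M3BK (Nrm)

theorem rLA : OfLA := by
  intro rs op gs ex k L _ _ _ _ ι y e D R h h0 hx hS hn hz
  have hm : (0 : ℚ) < D.m := by exact_mod_cast h.sem.m
  have nx : ∀ Γ : DV L, ∀ l, ¬NC Γ (D.x l) := fun Γ l x => by
    obtain ⟨c, e⟩ := hx l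
    exact nc_ne x c e
  have xb : ∀ Γ : DV L, ∀ l, D.x l ∈ Γ.F 0 := fun Γ l => by
    obtain ⟨c, e⟩ := hx l
    exact Or.inr (by rw [e, Γ.cst])
  obtain ⟨ex1, ex2⟩ := ex k L ι y e D.d R
  have gau : ∀ U, Nrm U → ∀ a : ℚ, Exp e U a →
      ∃ Γ, Cv D.x Γ ∧ (∀ t, Γ.v (ι t) = U.v t) ∧ D.ex Γ = a := fun U hU a ha => by
    obtain ⟨Γ, g1, g2⟩ := gs k L ι y e D.d R U hU
    have g3 : ∀ t, Γ.v (ι t) = U.v t := fun t => by simpa using g1.2.2 t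
    have c : Cv D.x Γ := ⟨hU.elim fun π hπ => ⟨ι π, (g3 π).trans hπ⟩, xb Γ, y, g2⟩
    exact ⟨Γ, c, g3, ((ex2 Γ _ c.sur c.nc (h.vol.exp Γ c)).2 U 1 a g1 ha).2 rfl g2⟩
  have dg : ∀ Γ, Cv D.x Γ → ∃ w, ι w ∈ D.S0 ∧ ι w ≠ 0 ∧ D.m * D.α Γ = -Γ.v (ι w) := fun Γ c => by
    obtain ⟨r, ⟨r1, r0, -⟩, r2⟩ := h.sem.dg0 Γ c
    obtain ⟨w, rfl⟩ := hS r r1
    rw [th_eq, h0, zero_mul, add_zero] at r2
    exact ⟨w, r1, r0, by rw [r2, neg_neg]⟩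
  have rc : ∀ s ∈ D.S0, ∀ s' ∈ D.S0, ∃ c : ℂ, s' / s = algebraMap ℂ L c := fun s hs s' hs' => by
    by_contra! x
    have ht := exists_der D.C h.vol.srf.fin (tr_of_nc x)
    obtain ⟨Y, y1, y2, -⟩ := R.eul
    have y3 : Y (s' / s) = 0 := by
      obtain ⟨u, rfl⟩ := hS s hs
      obtain ⟨u', rfl⟩ := hS s' hs'
      rw [← map_div₀, y1]
    obtain ⟨κ, rfl⟩ := fib_mul D.C ht y3
    have kz : ∀ c, ι c ∈ Kz (s' / s) := fun c => (mem_Kz D.C ht).2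
      ((mul_eq_zero.1 (show κ * fib D.C _ (ι c) = 0 from y1 c)).resolve_left fun e =>
        R.y0 (by rw [← y2, e, zero_smul]; rfl))
    have p : Pc D (s' / s) := ⟨ht, IntermediateField.adjoin_le_iff.2 (by
      rintro _ (⟨l, rfl⟩ | ⟨r, hr, r', hr', rfl⟩)
      · obtain ⟨c, e⟩ := hx l
        rw [e]
        exact IntermediateField.algebraMap_mem _ c
      · obtain ⟨u, rfl⟩ := hS r hr
        obtain ⟨u', rfl⟩ := hS r' hr'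
        exact div_mem (kz u') (kz u))⟩
    obtain ⟨Γ, g1, g2⟩ := p.pos1 h.ok2
    have c := p.cv g1
    have n := p.nn1 h.ok2 (rat_mem _ hs hs') g1
    rcases h.kvl Γ c fun z => n (h.nul Γ c z).1 with ⟨j, hj⟩ | z
    · obtain ⟨w, -, -, w2⟩ := dg Γ c
      rw [g1.unit (kz w), Int.cast_zero, neg_zero, SD.α, core_sum hj] at w2
      exact n (hz Γ j c hj ((mul_eq_zero.1 w2).resolve_left hm.ne') (nx Γ))
    · simp [SD.th, z.1] at g2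
  obtain ⟨U₀, a₀, n₀, e₀, l₀⟩ := hn
  obtain ⟨Γ₀, c₀, -⟩ := gau U₀ n₀ a₀ e₀
  obtain ⟨u, u1, u0, -⟩ := dg Γ₀ c₀
  have al : ∀ Γ, Cv D.x Γ → D.m * D.α Γ = -Γ.v (ι u) := fun Γ c => by
    obtain ⟨w, w1, w0, w2⟩ := dg Γ c
    obtain ⟨c', h3⟩ := rc _ u1 _ w1
    have h4 := Γ.cst c'
    rw [← h3, div_eq_mul_inv, Γ.mul _ _ w0 (inv_ne_zero u0), Γ.inv] at h4
    rw [w2, neg_inj]
    exact_mod_cast (by omega : Γ.v (ι w) = Γ.v (ι u))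
  have le : ∀ U, Nrm U → ∀ a : ℚ, Exp e U a → -(U.v u : ℚ) / D.m ≤ a := fun U hU a ha => by
    obtain ⟨Γ, g1, g2, g3⟩ := gau U hU a ha
    rw [← g2, ← al Γ g1, mul_div_cancel_left₀ _ hm.ne', ← g3]
    exact (h.sgn Γ g1).2.1
  refine crv R.ff R.rat (fun U => -(U.v u : ℚ) / D.m) (n := D.m) (φ := u⁻¹) h.sem.m
    (fun U hU => ?_) (fun U _ => ?_) ⟨U₀, n₀, (le U₀ n₀ a₀ e₀).trans_lt l₀⟩
  swap
  · rw [U.inv, mul_div_cancel₀ _ hm.ne', Int.cast_neg]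
  obtain ⟨a, ha⟩ := ex1 U hU
  refine ⟨a, ha, ?_⟩
  obtain ⟨t, t1, t2⟩ := Q3FD.one_pole R.ff hU
  obtain ⟨Γ, g1, g2, g3⟩ : ∃ Γ, Cv D.x Γ ∧ ¬Null D.x D.S1 Γ ∧ ι t ∉ Γ.F 0 := by
    by_contra! x
    obtain ⟨c, hc⟩ := h.ok2.fix hx x
    exact t1 c (ι.injective (hc.trans (ι.commutes c).symm))
  obtain ⟨m, ov⟩ : ∃ m, Ovr ι Γ U m := by
    rcases rs k L ι Γ with z | ⟨U', m, z⟩
    · exact absurd (Or.inr (z t).ge) g3
    by_cases q : U' = U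
    · exact ⟨m, q ▸ z⟩
    refine absurd ?_ g3
    rcases t2 U' z.1 q with h5 | h5
    · rw [h5, map_zero]
      exact zero_mem _
    · exact Or.inr (by rw [z.2.2]; positivity)
  obtain ⟨A, h3⟩ := ((ex2 Γ _ g1.sur g1.nc (h.vol.exp Γ g1)).2 U m a ov ha).1
  rw [mul_comm] at h3
  have m0 : (0 : ℚ) < m := by exact_mod_cast ov.2.1
  have A0 : (0 : ℚ) ≤ A := Nat.cast_nonneg A
  have h4 : D.α Γ = -(U.v u : ℚ) / D.m * m := by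
    rw [div_mul_eq_mul_div, eq_div_iff hm.ne', mul_comm, al Γ g1, ov.2.2]
    push_cast
    ring
  have h5 := le U hU a ha
  rcases cls_of1 h.kvl g1 g2 with x | x
  · exact Or.inl (le_antisymm (le_of_mul_le_mul_right (by linarith) m0) h5)
  · have h6 : -(U.v u : ℚ) / D.m = 0 := (mul_eq_zero.1 (h4 ▸ x.1)).resolve_right m0.ne'
    obtain ⟨r, r0, z⟩ := Q3FD.hon_cnt x.2
    exact (Q3FD.arith ov.2.1 r0 (h3 ▸ z)).imp (fun z => le_antisymm (h6 ▸ z) h5) fun z => ⟨h6, z⟩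

end Pool.Agent.MP_ee8c61_ag.Q3FT
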