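import Pool.Agent.MP_ee8c61_ag.Q3FT.Spec2
import Pool.Agent.MP_ee8c61_ag.M3E.Final
import Pool.Agent.MP_ee8c61_ag.M3.RBS
import Pool.Agent.MP_ee8c61_ag.M3RESID.RAV

/-! The type of a double curve at a simple root. -/

namespace Pool.Agent.MP_ee8c61_ag.Q3FT

open M3 M3RESID M3F Q3 Q3BK Polynomial

namespace RT2

theorem ex_e {f : Po 3} {W M : Mod 3} (D : Dom W M) (hW : W.OK f) (hM : M.OK f) (la : ℚ)
    (j : M.J) : W.ex la (D.e j) = M.ex la j := by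
  have hk := (M3E.eout.jd 3 f W M D hW hM).2 j
  have ha : W.a (D.e j) = M.a j := by
    have := v_f hW (D.e j)
    rw [D.v j, v_f hM] at this
    exact_mod_cast this.symm
  rw [Mod.ex, hk, ha, Mod.ex]

theorem der_ne {b : ℂ[X]} {c : ℂ} (h : b.eval (-c) = 0) (h2 : ¬(X + C c) ^ 2 ∣ b) :
    b.derivative.eval (-c) ≠ 0 := fun e => by
  have b0 : b ≠ 0 := fun e => h2 (e ▸ dvd_zero _)
  have := (le_rootMultiplicity_iff b0).1 ((one_lt_rootMultiplicity_iff_isRoot b0).2 ⟨h, e⟩)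
  rw [map_neg, sub_neg_eq_add] at this
  exact h2 this

/-- A section without poles along the two divisors is regular at the double curve. -/
theorem lc_of {f : Po 3} {M : Mod 3} (hM : M.OK f) {o j : M.J} {V : Vl 3} (hV : M.IsCv o j V)
    {b : M.ι} (hb : M.In b V) {c : M.J → ℤ} (ho : c o ≤ 0) (hj : c j ≤ 0) {g : KK 3}
    (hg : g ∈ M.H c) : Lc (M.S.A b) V g := by
  have B := M3E.eout.bas 3 f M hM
  refine (M3E.eout.nb 3 f M hM).lc b V g hb fun V' hb' hu => ?_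
  have := (B.oc_iff b V' 0 g hb').1 (B.oc_mono V' c 0 g (fun l hl => ?_) (hg V' (B.ov b V' hb')))
  · rwa [B.mon_zero, mul_one] at this
  have h1 : M.Thru V l := (B.thru_iff b V l hb).2 fun e =>
    (B.thru_iff b V' l hb').1 hl (hu _ (B.η_mem b l) e)
  rcases (M3E.eout.cv 3 f M hM).thru o j V l hV h1 with rfl | rfl
  exacts [ho, hj]

end RT2

open RT2

theorem rT2B : OfT2B := by
  classical
  intro hP hZ hNG hDD hLA hZF hFT hDS f la b M o j G e e' f0 hb hM hr h2 ho hj hG hV he he'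
  obtain ⟨hneg, hc⟩ := hNG f la b M o j G e e' f0 hb hM h2 ho hj hG hV he he'
  refine ⟨?_, hc⟩
  obtain ⟨β, Q, hQ⟩ := sbs 3 f b f0 hb
  have H : Hyp0 f b β Q := ⟨f0, hb, hQ⟩
  obtain ⟨W, D, i, hW, hF⟩ := hZF f la M o j _ hM ho hj hV
  obtain ⟨M2, D2, hM2, hN⟩ := hZ f la b β Q W H hW hr (der_ne hr h2)
  have h0 : M2.ex la (D2.e i) = 0 := (ex_e D2 hM2 hW la i).trans hF.ex
  obtain ⟨C, ha, hC⟩ := hP.ch f M2 f0 hM2 (D2.e i)
  obtain ⟨X, hX⟩ := hP.av f la b β Q M2 (D2.e i) H hM2 h0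
  obtain ⟨Y, hY⟩ := hP.as f la M2 C (D2.e i) hM2 h0
  have hS : Sit0 f la b β Q M2 C (D2.e i) := ⟨H, hM2, h0, ha⟩
  have hO := hP.ok f la b β Q M2 C _ X Y hS hX hY
  obtain ⟨ι, y, hR, hι⟩ := hFT f la W M D o j i G e e' _ (M2.v (D2.e i)).pl X.d hW hM ho hj hG hV
    hF he he' (D2.v i) hX.rd
  obtain ⟨a, ha'⟩ := hM.cov _ hV.2.1
  have hx : ∀ l, ∃ c : ℂ, (C.sd la b (D2.e i) X Y).x l = algebraMap ℂ _ c := fun l => by
    obtain ⟨c, hc⟩ := hc l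
    exact ⟨c, (hι a ha' (xx 3 l) (Lc.of_mem (hM.pol a _))).trans (by rw [← hc, ι.commutes])⟩
  rcases hC with hC | hC
  · exact hDD _ _ ι y e' (C.sd la b (D2.e i) X Y) hR hO hC.1
      (hP.small f la b β Q M2 C _ X Y hS hX hY hC.2.2) (hP.pen f la b β Q M2 C _ X Y hS hX hY hC)
      hx hneg
  refine hLA _ _ ι y e' (C.sd la b (D2.e i) X Y) hR hO hC hx (fun s hs => ?_) hneg
    (hN C _ X Y hS hX hY hC)
  obtain ⟨c, c1, c2⟩ := hDS f la M2 C (D2.e i) Y hM2 h0 hY hC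
  obtain ⟨g, hg, rfl⟩ := Finset.mem_image.1 hs
  have key : ∀ l, M.ex la l = 0 → D.pf (D2.pf c) l ≤ 0 := fun l hl => by
    have := c1 (D2.e (D.e l))
    rw [ex_e D2 hM2 hW, ex_e D hW hM, hl, mul_zero] at this
    exact_mod_cast this
  exact ⟨_, (hι a ha' g (lc_of hM hV ha' (key o ho) (key j hj) ((M3E.eout.dc 3 f W M D hW hM).push
    _ ((M3E.eout.dc 3 f M2 W D2 hM2 hW).push _ (c2 g hg))))).symm⟩

end Pool.Agent.MP_ee8c61_ag.Q3FT
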